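import Mathlib

/-!
Spines in posets of finite width: basic notions and counting lemmas.

Throughout, `col` is a colouring of the poset with finitely many colours whose colour classes are
chains, and `ν` is an infinite cardinal. A set is big if it has at least `ν` elements and small
otherwise.
-/

set_option autoImplicit false

open Set Cardinal

namespace Pool.Agent.P.MP_6ec1b7_co

universe u

section Card

variable {α : Type u} {ν : Cardinal.{u}}

lemma small_mono {S T : Set α} (hT : #T < ν) (h : S ⊆ T) : #S < ν :=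
  (mk_le_mk_of_subset h).trans_lt hT

lemma big_mono {S T : Set α} (hS : ν ≤ #S) (h : S ⊆ T) : ν ≤ #T :=
  hS.trans (mk_le_mk_of_subset h)

lemma small_union (hν : ℵ₀ ≤ ν) {S T : Set α} (hS : #S < ν) (hT : #T < ν) :
    #(S ∪ T : Set α) < ν :=
  (mk_union_le S T).trans_lt (add_lt_of_lt hν hS hT)

lemma small_of_subset_union (hν : ℵ₀ ≤ ν) {S A B : Set α} (hA : #A < ν)
    (hB : #B < ν) (h : S ⊆ A ∪ B) : #S < ν :=
  small_mono (small_union hν hA hB) h

lemma big_of_subset_union (hν : ℵ₀ ≤ ν) {S A B : Set α} (hS : ν ≤ #S)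
    (hB : #B < ν) (h : S ⊆ A ∪ B) : ν ≤ #A := by
  by_contra hA
  exact absurd hS (not_le.mpr (small_of_subset_union hν (not_le.mp hA) hB h))

lemma small_empty (hν : ℵ₀ ≤ ν) : #(∅ : Set α) < ν := by
  simpa using aleph0_pos.trans_le hν

lemma small_singleton (hν : ℵ₀ ≤ ν) (a : α) : #({a} : Set α) < ν := by
  rw [mk_singleton]; exact one_lt_aleph0.trans_le hν

lemma nonempty_of_big (hν : ℵ₀ ≤ ν) {S : Set α} (hS : ν ≤ #S) : S.Nonempty := by
  by_contra h
  rw [not_nonempty_iff_eq_empty] at h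
  subst h
  exact absurd hS (not_le.mpr (small_empty hν))

lemma exists_mem_not_mem (hν : ℵ₀ ≤ ν) {S T : Set α} (hS : ν ≤ #S) (hT : #T < ν) :
    ∃ x ∈ S, x ∉ T := by
  have : ν ≤ #(S \ T : Set α) :=
    big_of_subset_union hν hS hT (fun x hx => by by_cases h : x ∈ T <;> simp [h, hx])
  obtain ⟨x, hx⟩ := nonempty_of_big hν this
  exact ⟨x, hx.1, hx.2⟩

lemma small_biUnion (hν : ℵ₀ ≤ ν) {ι : Type} (f : ι → Set α) (s : Set ι) (hs : s.Finite)
    (h : ∀ i ∈ s, #(f i) < ν) : #(⋃ i ∈ s, f i : Set α) < ν := by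
  induction s, hs using Set.Finite.induction_on with
  | empty => simpa using aleph0_pos.trans_le hν
  | insert _ _ ih =>
    rw [biUnion_insert]
    exact small_union hν (h _ (mem_insert _ _)) (ih fun i hi => h i (mem_insert_of_mem _ hi))

lemma small_iUnion (hν : ℵ₀ ≤ ν) {ι : Type} [Finite ι] (f : ι → Set α)
    (h : ∀ i, #(f i) < ν) : #(⋃ i, f i : Set α) < ν := by
  have := small_biUnion hν f univ finite_univ fun i _ => h i
  simpa using this

lemma exists_big_col (hν : ℵ₀ ≤ ν) {ι : Type} [Finite ι] (col : α → ι) {S : Set α}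
    (hS : ν ≤ #S) : ∃ l, ν ≤ #(S ∩ col ⁻¹' {l} : Set α) := by
  by_contra h
  push Not at h
  have := small_iUnion hν _ h
  exact absurd hS (not_le.mpr (small_mono this fun x hx => mem_iUnion.mpr ⟨col x, hx, rfl⟩))

/-- If a map is injective on every colour class, the image of a big set is big. -/
lemma big_image (hν : ℵ₀ ≤ ν) {ι : Type} [Finite ι] (col : α → ι) {S : Set α} (f : α → α)
    (hf : ∀ x ∈ S, ∀ y ∈ S, col x = col y → f x = f y → x = y) (hS : ν ≤ #S) :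
    ν ≤ #(f '' S) := by
  obtain ⟨l, hl⟩ := exists_big_col hν col hS
  have hinj : InjOn f (S ∩ col ⁻¹' {l}) := fun x hx y hy h =>
    hf x hx.1 y hy.1 (by rw [hx.2, hy.2]) h
  rw [← mk_image_eq_of_injOn f _ hinj] at hl
  exact big_mono hl (image_mono inter_subset_left)

/-- Distinct representatives for at most `ν` sets of size at least `ν`. -/
lemma exists_sdr (O : Set α) (hO : #O ≤ ν) (F : α → Set α)
    (hF : ∀ x ∈ O, ν ≤ #(F x)) : ∃ g : α → α, (∀ x ∈ O, g x ∈ F x) ∧ InjOn g O := by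
  classical
  have hO' : #O ≤ #ν.ord.ToType := by rwa [mk_ord_toType]
  obtain ⟨e⟩ := (Cardinal.le_def _ _).mp hO'
  have wf : WellFounded fun x y : O => e x < e y := InvImage.wf e wellFounded_lt
  have hsmall : ∀ x : O, #{y : O // e y < e x} < ν := by
    intro x
    have h1 : #{y : O // e y < e x} ≤ #(Iio (e x)) :=
      mk_le_of_injective (f := fun y => ⟨e y.1, y.2⟩) fun a b h =>
        Subtype.ext (e.injective (congrArg Subtype.val h))
    have h2 : #(Iio (e x)) < ν := by simpa using mk_Iio_lt (e x)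
    exact h1.trans_lt h2
  have hex : ∀ (x : O) (r : ∀ y : O, e y < e x → α),
      ∃ c ∈ F x, ∀ (y : O) (h : e y < e x), r y h ≠ c := by
    intro x r
    by_contra hc
    push Not at hc
    have : F x ⊆ range fun y : {y : O // e y < e x} => r y.1 y.2 := fun c hcF => by
      obtain ⟨y, h, hy⟩ := hc c hcF
      exact ⟨⟨y, h⟩, hy⟩
    exact absurd (hF x x.2)
      (not_le.mpr (((mk_le_mk_of_subset this).trans mk_range_le).trans_lt (hsmall x)))
  choose G hG1 hG2 using hex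
  let g : O → α := wf.fix G
  have hg : ∀ x, g x = G x fun y _ => g y := fun x => wf.fix_eq G x
  refine ⟨fun x => if h : x ∈ O then g ⟨x, h⟩ else x, fun x hx => ?_, fun x hx y hy hxy => ?_⟩
  · simp only [dif_pos hx]
    rw [hg]
    exact hG1 ⟨x, hx⟩ _
  · simp only [dif_pos hx, dif_pos hy] at hxy
    rcases lt_trichotomy (e ⟨x, hx⟩) (e ⟨y, hy⟩) with h | h | h
    · exact absurd (hxy.trans (hg _)) (hG2 _ (fun y _ => g y) _ h)
    · exact congrArg Subtype.val (e.injective h)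
    · exact absurd (hxy.symm.trans (hg _)) (hG2 _ (fun y _ => g y) _ h)

end Card

/-- A form of the infinity lemma. -/
lemma konig {β : Type u} (T : ℕ → Set β) (hfin : ∀ n, (T n).Finite) (hne : ∀ n, (T n).Nonempty)
    (r : ℕ → β → β → Prop) (hr : ∀ n, ∀ a ∈ T (n + 1), ∃ b ∈ T n, r n a b) :
    ∃ s : ℕ → β, ∀ n, s n ∈ T n ∧ r n (s (n + 1)) (s n) := by
  classical
  have hpath : ∀ m, ∀ a ∈ T m, ∃ p : ℕ → β, p m = a ∧ (∀ n ≤ m, p n ∈ T n) ∧
      ∀ n < m, r n (p (n + 1)) (p n) := by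
    intro m
    induction m with
    | zero =>
      intro a ha
      exact ⟨fun _ => a, rfl, fun n hn => by rwa [Nat.le_zero.mp hn], fun n hn => absurd hn (by omega)⟩
    | succ m ih =>
      intro a ha
      obtain ⟨b, hb, hab⟩ := hr m a ha
      obtain ⟨p, hp1, hp2, hp3⟩ := ih b hb
      refine ⟨Function.update p (m + 1) a, by simp, fun n hn => ?_, fun n hn => ?_⟩
      · rcases Nat.lt_or_ge n (m + 1) with h | h
        · rw [Function.update_of_ne (by omega)]; exact hp2 n (by omega)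
        · have : n = m + 1 := by omega
          subst this; simpa using ha
      · rcases Nat.lt_or_ge n m with h | h
        · rw [Function.update_of_ne (by omega), Function.update_of_ne (by omega)]; exact hp3 n h
        · have : n = m := by omega
          subst this
          rw [Function.update_self, Function.update_of_ne (by omega), hp1]; exact hab
  have hpath' : ∀ m, ∃ p : ℕ → β, (∀ n ≤ m, p n ∈ T n) ∧ ∀ n < m, r n (p (n + 1)) (p n) := by
    intro m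
    obtain ⟨a, ha⟩ := hne m
    obtain ⟨p, -, h⟩ := hpath m a ha
    exact ⟨p, h⟩
  choose p hp1 hp2 using hpath'
  have hlim : ∀ n, ∃ a ∈ T n, ∀ᶠ m in (Filter.hyperfilter ℕ : Filter ℕ), p m n = a := by
    intro n
    rw [← Ultrafilter.eventually_exists_mem_iff (hfin n)]
    have : ∀ᶠ m in (Filter.hyperfilter ℕ : Filter ℕ), n ≤ m :=
      Nat.hyperfilter_le_atTop (Filter.eventually_ge_atTop n)
    filter_upwards [this] with m hm
    exact ⟨_, hp1 m n hm, rfl⟩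
  choose s hs1 hs2 using hlim
  refine ⟨s, fun n => ⟨hs1 n, ?_⟩⟩
  have : ∀ᶠ m in (Filter.hyperfilter ℕ : Filter ℕ), n < m :=
    Nat.hyperfilter_le_atTop (Filter.eventually_gt_atTop n)
  obtain ⟨m, h1, h2, h3⟩ := (this.and ((hs2 n).and (hs2 (n + 1)))).exists
  rw [← h2, ← h3]
  exact hp2 m n h1

section Order

variable {α : Type u} [PartialOrder α] {ν : Cardinal.{u}} {ι : Type} [Finite ι] {col : α → ι}

/-- Incomparability. -/
def Inc (x y : α) : Prop := ¬ x ≤ y ∧ ¬ y ≤ x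

lemma Inc.symm {x y : α} (h : Inc x y) : Inc y x := ⟨h.2, h.1⟩

lemma not_inc_self (x : α) : ¬ Inc x x := fun h => h.1 le_rfl

lemma not_inc {x y : α} : ¬ Inc x y ↔ x ≤ y ∨ y ≤ x := by
  unfold Inc; tauto

/-- The elements incomparable to `x`. -/
def N (x : α) : Set α := {u | Inc u x}

lemma N_dual (x : α) : N (α := αᵒᵈ) x = N x := by
  ext u; exact and_comm

/-- Chains. -/
def Ch (E : Set α) : Prop := ∀ x ∈ E, ∀ y ∈ E, x ≤ y ∨ y ≤ x

lemma Ch.dual {E : Set α} (h : Ch E) : Ch (α := αᵒᵈ) E := fun x hx y hy => h y hy x hx |>.symm |>.symm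

lemma Ch.undual {E : Set α} (h : Ch (α := αᵒᵈ) E) : Ch E := fun x hx y hy => h y hy x hx

lemma Ch.mono {E F : Set α} (h : Ch F) (hE : E ⊆ F) : Ch E := fun x hx y hy =>
  h x (hE hx) y (hE hy)

/-- The colour classes are chains. -/
def ChCol (col : α → ι) : Prop := ∀ x y, col x = col y → x ≤ y ∨ y ≤ x

omit [Finite ι] in
lemma ChCol.dual (h : ChCol col) : ChCol (α := αᵒᵈ) col := fun x y hxy => (h x y hxy).symm

omit [Finite ι] in
lemma ChCol.ch (h : ChCol col) (S : Set α) (l : ι) : Ch (S ∩ col ⁻¹' {l}) :=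
  fun x hx y hy => h x y (by rw [hx.2, hy.2])

/-- A nonempty chain all of whose upper tails are big. -/
def UpEnd (ν : Cardinal.{u}) (E : Set α) : Prop :=
  E.Nonempty ∧ Ch E ∧ ∀ d ∈ E, ν ≤ #(E ∩ Ici d : Set α)

/-- A nonempty chain all of whose lower tails are big. -/
def DownEnd (ν : Cardinal.{u}) (E : Set α) : Prop :=
  E.Nonempty ∧ Ch E ∧ ∀ d ∈ E, ν ≤ #(E ∩ Iic d : Set α)

lemma UpEnd.dual {E : Set α} (h : UpEnd ν E) : DownEnd (α := αᵒᵈ) ν E := ⟨h.1, h.2.1.dual, h.2.2⟩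
lemma DownEnd.dual {E : Set α} (h : DownEnd ν E) : UpEnd (α := αᵒᵈ) ν E :=
  ⟨h.1, h.2.1.dual, h.2.2⟩
lemma UpEnd.undual {E : Set α} (h : UpEnd (α := αᵒᵈ) ν E) : DownEnd ν E :=
  ⟨h.1, h.2.1.undual, h.2.2⟩
lemma DownEnd.undual {E : Set α} (h : DownEnd (α := αᵒᵈ) ν E) : UpEnd ν E :=
  ⟨h.1, h.2.1.undual, h.2.2⟩

lemma DownEnd.tail {E : Set α} (h : DownEnd ν E) {d : α} (hd : d ∈ E) :
    DownEnd ν (E ∩ Iic d) := by
  refine ⟨⟨d, hd, le_rfl⟩, h.2.1.mono inter_subset_left, fun e he => ?_⟩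
  exact big_mono (h.2.2 e he.1) fun x hx => ⟨⟨hx.1, le_trans hx.2 he.2⟩, hx.2⟩

/-- `S` is closed downwards inside `X`. -/
def Low (X S : Set α) : Prop := S ⊆ X ∧ ∀ u ∈ X, ∀ z ∈ S, u ≤ z → u ∈ S

/-- `S` is closed upwards inside `X`. -/
def Upp (X S : Set α) : Prop := S ⊆ X ∧ ∀ u ∈ X, ∀ z ∈ S, z ≤ u → u ∈ S

lemma Low.trans {X Y Z : Set α} (h1 : Low X Y) (h2 : Low Y Z) : Low X Z :=
  ⟨h2.1.trans h1.1, fun u hu z hz h => h2.2 u (h1.2 u hu z (h2.1 hz) h) z hz h⟩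

lemma exists_end (hν : ℵ₀ ≤ ν) (hc : ChCol col) {S : Set α} (hS : ν ≤ #S) :
    ∃ E ⊆ S, UpEnd ν E ∨ DownEnd ν E := by
  obtain ⟨l, hl⟩ := exists_big_col hν col hS
  set D := S ∩ col ⁻¹' {l} with hD
  have hch : Ch D := hc.ch S l
  set I := {d ∈ D | #(D ∩ Iic d : Set α) < ν} with hI
  by_cases hbig : ν ≤ #I
  · refine ⟨I, fun x hx => hx.1.1, Or.inl ⟨nonempty_of_big hν hbig, hch.mono fun x hx => hx.1,
      fun d hd => big_of_subset_union hν hbig hd.2 fun x hx => ?_⟩⟩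
    rcases hch x hx.1 d hd.1 with h | h
    · exact Or.inr ⟨hx.1, h⟩
    · exact Or.inl ⟨hx, h⟩
  · have hsm := not_le.mp hbig
    refine ⟨D \ I, fun x hx => hx.1.1, Or.inr ⟨?_, hch.mono sdiff_subset, fun d hd => ?_⟩⟩
    · obtain ⟨x, h1, h2⟩ := exists_mem_not_mem hν hl hsm
      exact ⟨x, h1, h2⟩
    · have : ν ≤ #(D ∩ Iic d : Set α) := not_lt.mp fun h => hd.2 ⟨hd.1, h⟩
      refine big_of_subset_union hν this hsm fun x hx => ?_
      by_cases h : x ∈ I
      · exact Or.inr h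
      · exact Or.inl ⟨⟨hx.1, h⟩, hx.2⟩

/-- A decreasing sequence of lower sets with big differences yields a lower end. -/
lemma downEnd_of_seq (hν : ℵ₀ ≤ ν) (hc : ChCol col) (Z : ℕ → Set α)
    (hZ : ∀ n, Low (Z n) (Z (n + 1))) (hbig : ∀ n, ν ≤ #(Z n \ Z (n + 1) : Set α)) :
    ∃ E ⊆ Z 0, DownEnd ν E := by
  have hlow : ∀ n m, n ≤ m → Low (Z n) (Z m) := by
    intro n m h
    induction h with
    | refl => exact ⟨subset_rfl, fun u hu _ _ _ => hu⟩
    | step _ ih => exact ih.trans (hZ _)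
  choose l hl using fun n => exists_big_col hν col (hbig n)
  obtain ⟨k, hk⟩ := Finite.exists_infinite_fiber l
  have hk' : ∀ n, ∃ m, n ≤ m ∧ l m = k := by
    intro n
    have hinf : (l ⁻¹' {k}).Infinite := Set.infinite_coe_iff.mp hk
    obtain ⟨m, hm, hnm⟩ := hinf.exists_gt n
    exact ⟨m, hnm.le, hm⟩
  have hsub : ∀ m, l m = k → (Z m \ Z (m + 1)) ∩ col ⁻¹' {l m} ⊆
      {d | d ∈ Z 0 ∧ col d = k ∧ ∃ n, d ∉ Z n} := by
    intro m hm x hx
    exact ⟨(hlow 0 m (Nat.zero_le _)).1 hx.1.1, by rw [← hm]; exact hx.2, m + 1, hx.1.2⟩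
  refine ⟨{d | d ∈ Z 0 ∧ col d = k ∧ ∃ n, d ∉ Z n}, fun x hx => hx.1, ?_, ?_, ?_⟩
  · obtain ⟨m, -, hm⟩ := hk' 0
    exact (nonempty_of_big hν (hl m)).mono (hsub m hm)
  · intro x hx y hy
    exact hc x y (hx.2.1.trans hy.2.1.symm)
  · rintro d ⟨hd0, hdk, n, hdn⟩
    obtain ⟨m, hnm, hm⟩ := hk' n
    refine big_mono (hl m) fun t ht => ⟨hsub m hm ht, ?_⟩
    rcases hc t d (by rw [hdk, ← hm]; exact ht.2) with h | h
    · exact h
    · exact absurd ((hlow 0 n (Nat.zero_le _)).2 d hd0 t ((hlow n m hnm).1 ht.1.1) h) hdn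

/-- A big set in which every element has only few elements not above it. -/
def UpSimple (ν : Cardinal.{u}) (R : Set α) : Prop :=
  ν ≤ #R ∧ ∀ y ∈ R, #(R \ Ici y : Set α) < ν

lemma UpSimple.tail (hν : ℵ₀ ≤ ν) {R : Set α} (h : UpSimple ν R) {y : α} (hy : y ∈ R) :
    ν ≤ #(R ∩ Ici y : Set α) :=
  big_of_subset_union hν h.1 (h.2 y hy) fun x hx => by by_cases h' : x ∈ Ici y <;> simp_all

lemma UpSimple.thin {R : Set α} (h : UpSimple ν R) {y : α} (hy : y ∈ R) :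
    #(R ∩ N y : Set α) < ν :=
  small_mono (h.2 y hy) fun _ hx => ⟨hx.1, hx.2.2⟩

lemma UpSimple.bound (hν : ℵ₀ ≤ ν) {R : Set α} (h : UpSimple ν R) {κ : Type} [Finite κ]
    (z : κ → α) (hz : ∀ i, z i ∈ R) : ∃ y ∈ R, ∀ i, z i ≤ y := by
  obtain ⟨y, hy, hy'⟩ := exists_mem_not_mem hν h.1 (small_iUnion hν _ fun i => h.2 _ (hz i))
  refine ⟨y, hy, fun i => ?_⟩
  by_contra hn
  exact hy' (mem_iUnion.mpr ⟨i, hy, hn⟩)

lemma UpSimple.directed (hν : ℵ₀ ≤ ν) {R : Set α} (h : UpSimple ν R) {a b : α} (ha : a ∈ R)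
    (hb : b ∈ R) : ∃ y ∈ R, a ≤ y ∧ b ≤ y := by
  obtain ⟨y, hy, hy'⟩ := exists_mem_not_mem hν h.1 (small_union hν (h.2 a ha) (h.2 b hb))
  refine ⟨y, hy, ?_, ?_⟩
  · by_contra hn; exact hy' (Or.inl ⟨hy, hn⟩)
  · by_contra hn; exact hy' (Or.inr ⟨hy, hn⟩)

/-- A big set without lower ends has a simple lower subset. -/
lemma exists_simple (hν : ℵ₀ ≤ ν) (hc : ChCol col) {Y : Set α} (hY : ν ≤ #Y)
    (hno : ∀ E ⊆ Y, ¬ DownEnd ν E) : ∃ R, Low Y R ∧ UpSimple ν R := by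
  have h1 : ∃ Z, Low Y Z ∧ ν ≤ #Z ∧ ∀ Z', Low Z Z' → ν ≤ #Z' → #(Z \ Z' : Set α) < ν := by
    by_contra hcon
    push Not at hcon
    have hstep : ∀ Z : {Z : Set α // Low Y Z ∧ ν ≤ #Z}, ∃ Z' : {Z : Set α // Low Y Z ∧ ν ≤ #Z},
        Low Z.1 Z'.1 ∧ ν ≤ #(Z.1 \ Z'.1 : Set α) := by
      rintro ⟨Z, hZ1, hZ2⟩
      obtain ⟨Z', h1, h2, h3⟩ := hcon Z hZ1 hZ2
      exact ⟨⟨Z', hZ1.trans h1, h2⟩, h1, h3⟩
    choose φ hφ using hstep
    let Z0 : {Z : Set α // Low Y Z ∧ ν ≤ #Z} := ⟨Y, ⟨subset_rfl, fun u hu _ _ _ => hu⟩, hY⟩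
    obtain ⟨E, hE1, hE2⟩ := downEnd_of_seq hν hc (fun n => (φ^[n] Z0).1)
      (fun n => by simp only [Function.iterate_succ_apply']; exact (hφ _).1)
      (fun n => by simp only [Function.iterate_succ_apply']; exact (hφ _).2)
    exact hno E hE1 hE2
  obtain ⟨Z, hZ1, hZ2, hZ3⟩ := h1
  refine ⟨{y ∈ Z | #(Z \ Ici y : Set α) < ν}, ⟨fun y hy => hZ1.1 hy.1, fun u hu z hz h =>
    ⟨hZ1.2 u hu z hz.1 h, small_mono hz.2 fun x hx => ⟨hx.1, fun h' => hx.2 (h.trans h')⟩⟩⟩, ?_,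
    fun y hy => small_mono hy.2 fun x hx => ⟨hx.1.1, hx.2⟩⟩
  obtain ⟨E, hE, hE' | hE'⟩ := exists_end hν hc hZ2
  · obtain ⟨d, hd⟩ := hE'.1
    refine big_mono (hE'.2.2 d hd) fun e he => ⟨hE he.1, ?_⟩
    by_contra hcon
    have := hZ3 (Z \ Ici e) ⟨sdiff_subset, fun u hu z hz h => ⟨hu, fun h' => hz.2 (le_trans h' h)⟩⟩
      (not_lt.mp hcon)
    exact absurd (hE'.2.2 e he.1) (not_le.mpr (small_mono this fun x hx =>
      ⟨hE hx.1, fun h => h.2 hx.2⟩))
  · exact absurd hE' (hno E (hE.trans hZ1.1))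

/-- A chain all of whose initial segments have fewer than `θ` elements has at most `θ`. -/
lemma card_chain_le {θ : Cardinal.{u}} (hθ : ℵ₀ ≤ θ) {D : Set α} (hD : Ch D)
    (h : ∀ d ∈ D, #(D ∩ Iic d : Set α) < θ) : #D ≤ θ := by
  by_contra hcon
  obtain ⟨T, hT1, hT2⟩ := le_mk_iff_exists_subset.mp (not_le.mp hcon).le
  have hsub : D ⊆ ⋃ t ∈ T, D ∩ Iic t := by
    intro d hd
    by_contra hn
    simp only [mem_iUnion, not_exists] at hn
    have : T ⊆ D ∩ Iic d := fun t ht => ⟨hT1 ht, by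
      rcases hD t (hT1 ht) d hd with h' | h'
      · exact h'
      · exact absurd ⟨hd, h'⟩ (hn t ht)⟩
    exact absurd (h d hd) (not_lt.mpr (hT2 ▸ mk_le_mk_of_subset this))
  apply hcon
  refine (mk_le_mk_of_subset hsub).trans ((mk_biUnion_le _ T).trans ?_)
  rw [hT2]
  have : (⨆ x : T, #(D ∩ Iic x.1 : Set α)) ≤ θ := ciSup_le' fun x => (h x (hT1 x.2)).le
  exact (mul_le_mul_right this θ).trans (mul_eq_self hθ).le

lemma UpSimple.exists_iic (hν : ℵ₀ < ν) (hc : ChCol col) {R : Set α} (h : UpSimple ν R)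
    {θ : Cardinal.{u}} (hθ : θ < ν) : ∃ b ∈ R, θ ≤ #(R ∩ Iic b : Set α) := by
  obtain ⟨l, hl⟩ := exists_big_col hν.le col h.1
  by_contra hcon
  push Not at hcon
  have := card_chain_le (le_max_right θ ℵ₀) (hc.ch R l) fun d hd =>
    (small_mono (hcon d hd.1) fun x hx => ⟨hx.1.1, hx.2⟩).trans_le (le_max_left _ _)
  exact absurd (hl.trans this) (not_le.mpr (max_lt hθ hν))

end Order

end Pool.Agent.P.MP_6ec1b7_co
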