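import Pool.Agent.P.MP_6ec1b7_co.Basic

/-!
Cores. A full core of `X` is a subset `B` such that every element of `B` is incomparable to few
elements of `B`, while every other element of `X` is incomparable to many elements of `B`.
-/

set_option autoImplicit false

open Set Cardinal

namespace Pool.Agent.P.MP_6ec1b7_co

universe u

variable {α : Type u} [PartialOrder α] {ν : Cardinal.{u}} {ι : Type} [Finite ι] {col : α → ι}

/-- Every element has few incomparable elements inside the set. -/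
def Thin (ν : Cardinal.{u}) (B : Set α) : Prop := ∀ y ∈ B, #(B ∩ N y : Set α) < ν

/-- A core of `X`. -/
def Core (ν : Cardinal.{u}) (X B : Set α) : Prop :=
  B ⊆ X ∧ Thin ν B ∧ ∀ x ∈ X, x ∉ B → ∀ y ∈ B, Inc y x → ν ≤ #(B ∩ N x : Set α)

/-- A full core of `X`. -/
def Full (ν : Cardinal.{u}) (X B : Set α) : Prop :=
  B ⊆ X ∧ Thin ν B ∧ ∀ x ∈ X, x ∉ B → ν ≤ #(B ∩ N x : Set α)

/-- `X` has a nonempty core. -/
def HasCore (ν : Cardinal.{u}) (X : Set α) : Prop := ∃ B, B.Nonempty ∧ Core ν X B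

lemma HasCore.undual {X : Set α} (h : HasCore (α := αᵒᵈ) ν X) : HasCore ν X := by
  obtain ⟨B, h0, h1, h2, h3⟩ := h
  refine ⟨B, h0, h1, fun y hy => ?_, fun x hx hx' y hy hi => ?_⟩
  · have := h2 y hy
    rwa [N_dual] at this
  · have := h3 x hx hx' y hy ⟨hi.2, hi.1⟩
    rwa [N_dual] at this

omit [PartialOrder α] in
/-- Zorn's lemma for families of sets ordered by extension along a relation. -/
lemma zorn_ext (Pr : Set α → Prop) (rel : α → α → Prop)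
    (hU : ∀ c : Set (Set α), (∀ B ∈ c, Pr B) →
      (∀ B ∈ c, ∀ y ∈ B, ∀ u ∈ ⋃₀ c, u ∉ B → rel y u) → DirectedOn (· ⊆ ·) c → Pr (⋃₀ c)) :
    ∃ B, Pr B ∧ ∀ B', Pr B' → B ⊆ B' → (∀ y ∈ B, ∀ u ∈ B', u ∉ B → rel y u) → B' ⊆ B := by
  let r : {B // Pr B} → {B // Pr B} → Prop := fun A B =>
    A.1 ⊆ B.1 ∧ ∀ y ∈ A.1, ∀ u ∈ B.1, u ∉ A.1 → rel y u
  have : ∃ m, ∀ a, r m a → r a m := by
    apply exists_maximal_of_chains_bounded
    · intro c hc
      have key : ∀ B ∈ Subtype.val '' c, ∀ y ∈ B, ∀ u ∈ ⋃₀ (Subtype.val '' c), u ∉ B →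
          rel y u := by
        rintro _ ⟨B, hB, rfl⟩ y hy u ⟨_, ⟨B', hB', rfl⟩, hu⟩ huB
        by_cases hBB : B = B'
        · exact absurd (hBB ▸ hu) huB
        · rcases hc hB hB' hBB with h | h
          · exact h.2 y hy u hu huB
          · exact absurd (h.1 hu) huB
      have hdir : DirectedOn (· ⊆ ·) (Subtype.val '' c) := by
        rintro _ ⟨B, hB, rfl⟩ _ ⟨B', hB', rfl⟩
        by_cases hBB : B = B'
        · exact ⟨_, ⟨B, hB, rfl⟩, subset_rfl, hBB ▸ subset_rfl⟩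
        · rcases hc hB hB' hBB with h | h
          · exact ⟨_, ⟨B', hB', rfl⟩, h.1, subset_rfl⟩
          · exact ⟨_, ⟨B, hB, rfl⟩, subset_rfl, h.1⟩
      refine ⟨⟨⋃₀ (Subtype.val '' c), hU _ ?_ key hdir⟩, fun a ha =>
        ⟨subset_sUnion_of_mem ⟨a, ha, rfl⟩, key _ ⟨a, ha, rfl⟩⟩⟩
      rintro _ ⟨B, -, rfl⟩
      exact B.2
    · intro a b c hab hbc
      refine ⟨hab.1.trans hbc.1, fun y hy u hu hua => ?_⟩
      by_cases hub : u ∈ b.1
      · exact hab.2 y hy u hub hua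
      · exact hbc.2 y (hab.1 hy) u hu hub
  obtain ⟨m, hm⟩ := this
  exact ⟨m.1, m.2, fun B' h1 h2 h3 => (hm ⟨B', h1⟩ ⟨h2, h3⟩).1⟩

lemma exists_full {X : Set α} (h : ∀ Y ⊆ X, Y.Nonempty → HasCore ν Y) : ∃ B, Full ν X B := by
  obtain ⟨B, hB, hmax⟩ := zorn_ext (Core ν X) (fun y u => ¬ Inc u y) (by
    intro c hc key _
    refine ⟨sUnion_subset fun B hB => (hc B hB).1, ?_, ?_⟩
    · rintro y ⟨B, hB, hy⟩
      refine small_mono ((hc B hB).2.1 y hy) fun u hu => ⟨?_, hu.2⟩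
      by_contra huB
      exact key B hB y hy u hu.1 huB hu.2
    · rintro x hx hxU y ⟨B, hB, hy⟩ hi
      exact big_mono ((hc B hB).2.2 x hx (fun h => hxU ⟨B, hB, h⟩) y hy hi)
        (inter_subset_inter_left _ (subset_sUnion_of_mem hB)))
  refine ⟨B, hB.1, hB.2.1, fun x hx hxB => ?_⟩
  by_contra hcon
  have hx' : ∀ y ∈ B, ¬ Inc y x := fun y hy hi => hcon (hB.2.2 x hx hxB y hy hi)
  obtain ⟨B', ⟨b, hb⟩, h1, h2, h3⟩ :=
    h {x | x ∈ X ∧ x ∉ B ∧ ∀ y ∈ B, ¬ Inc y x} (fun _ h => h.1) ⟨x, hx, hxB, hx'⟩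
  have hcore : Core ν X (B ∪ B') := by
    refine ⟨union_subset hB.1 fun u hu => (h1 hu).1, ?_, ?_⟩
    · rintro y (hy | hy)
      · refine small_mono (hB.2.1 y hy) ?_
        rintro u ⟨hu | hu, hi⟩
        · exact ⟨hu, hi⟩
        · exact absurd (Inc.symm hi) ((h1 hu).2.2 y hy)
      · refine small_mono (h2 y hy) ?_
        rintro u ⟨hu | hu, hi⟩
        · exact absurd hi ((h1 hy).2.2 u hu)
        · exact ⟨hu, hi⟩
    · intro z hz hzU y hy hi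
      have hzB : z ∉ B := fun h => hzU (Or.inl h)
      by_cases hz' : ∃ y ∈ B, Inc y z
      · obtain ⟨y', hy', hi'⟩ := hz'
        exact big_mono (hB.2.2 z hz hzB y' hy' hi') (inter_subset_inter_left _ subset_union_left)
      · push Not at hz'
        rcases hy with hy | hy
        · exact absurd hi (hz' y hy)
        · exact big_mono (h3 z ⟨hz, hzB, hz'⟩ (fun h => hzU (Or.inr h)) y hy hi)
            (inter_subset_inter_left _ subset_union_right)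
  have := hmax _ hcore subset_union_left (by
    rintro y hy u (hu | hu) huB hi
    · exact huB hu
    · exact (h1 hu).2.2 y hy (Inc.symm hi))
  exact (h1 hb).2.1 (this (Or.inr hb))

lemma HasCore.of_closed {Y K : Set α} (hK : K ⊆ Y) (hcl : ∀ x ∈ Y, ∀ u ∈ K, Inc u x → x ∈ K)
    (h : HasCore ν K) : HasCore ν Y := by
  obtain ⟨B, h0, h1, h2, h3⟩ := h
  exact ⟨B, h0, h1.trans hK, h2, fun x hx hxB y hy hi =>
    h3 x (hcl x hx y (h1 hy) hi) hxB y hy hi⟩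

lemma hasCore_of_low (hν : ℵ₀ ≤ ν) (hc : ChCol col) {X S : Set α} (hS : Low X S) (hbig : ν ≤ #S)
    (hno : ∀ E ⊆ S, ¬ DownEnd ν E) : HasCore ν X := by
  obtain ⟨R, hR1, hR2⟩ := exists_simple hν hc hbig hno
  have hR := hS.trans hR1
  refine ⟨R, nonempty_of_big hν hR2.1, hR.1, fun y hy => hR2.thin hy, fun x hx hxR y hy hi => ?_⟩
  exact big_mono (hR2.tail hν hy) fun u hu =>
    ⟨hu.1, fun h => hi.1 (le_trans hu.2 h), fun h => hxR (hR.2 x hx u hu.1 h)⟩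

/-- `Y` contains a lower end lying partly below an upper end. -/
def Paired (ν : Cardinal.{u}) (Y : Set α) : Prop :=
  ∃ E F : Set α, E ⊆ Y ∧ F ⊆ Y ∧ DownEnd ν E ∧ UpEnd ν F ∧ ∃ a ∈ E, ∃ b ∈ F, a ≤ b

lemma Paired.mono {Y Z : Set α} (h : Paired ν Y) (hYZ : Y ⊆ Z) : Paired ν Z := by
  obtain ⟨E, F, h1, h2, h3⟩ := h
  exact ⟨E, F, h1.trans hYZ, h2.trans hYZ, h3⟩

lemma Paired.big {Y : Set α} (h : Paired ν Y) : ν ≤ #Y := by
  obtain ⟨E, F, h1, -, h3, -, a, ha, -⟩ := h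
  exact big_mono (h3.2.2 a ha) fun x hx => h1 hx.1

lemma hasCore_of_not_paired (hν : ℵ₀ ≤ ν) (hc : ChCol col) {Y : Set α} (hne : Y.Nonempty)
    (hY : ¬ Paired ν Y) : HasCore ν Y := by
  by_cases hsm : #Y < ν
  · exact ⟨Y, hne, subset_rfl, fun y _ => small_mono hsm inter_subset_left,
      fun x hx hx' => absurd hx hx'⟩
  have hbig := not_lt.mp hsm
  by_cases h1 : ν ≤ #{y | y ∈ Y ∧ ∀ E ⊆ Y ∩ Iic y, ¬ DownEnd ν E}
  · refine hasCore_of_low hν hc (S := {y | y ∈ Y ∧ ∀ E ⊆ Y ∩ Iic y, ¬ DownEnd ν E})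
      ⟨fun y hy => hy.1, fun u hu z hz h => ⟨hu, fun E hE =>
      hz.2 E fun x hx => ⟨(hE hx).1, le_trans (hE hx).2 h⟩⟩⟩ h1 fun E hE hend => ?_
    obtain ⟨d, hd⟩ := hend.1
    exact (hE hd).2 _ (fun x hx => ⟨(hE hx.1).1, hx.2⟩) (hend.tail hd)
  · have h2 : ν ≤ #{y | y ∈ Y ∧ ∀ E ⊆ Y ∩ Ici y, ¬ UpEnd ν E} := by
      refine big_of_subset_union hν hbig (not_le.mp h1) fun y hy => ?_
      by_contra hcon
      simp only [mem_union, mem_ofPred_eq, hy, true_and, not_or, not_forall, not_not] at hcon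
      obtain ⟨⟨F, hF1, hF2⟩, E, hE1, hE2⟩ := hcon
      obtain ⟨a, ha⟩ := hE2.1
      obtain ⟨b, hb⟩ := hF2.1
      exact hY ⟨E, F, fun x hx => (hE1 hx).1, fun x hx => (hF1 hx).1, hE2, hF2, a, ha, b, hb,
        le_trans (hE1 ha).2 (hF1 hb).2⟩
    refine HasCore.undual (hasCore_of_low (α := αᵒᵈ) hν hc.dual
      (S := {y | y ∈ Y ∧ ∀ E ⊆ Y ∩ Ici y, ¬ UpEnd ν E})
      ⟨fun y hy => hy.1, fun u hu z hz h => ⟨hu, fun E hE =>
      hz.2 E fun x hx => ⟨(hE hx).1, le_trans (α := α) h (hE hx).2⟩⟩⟩ h2 fun E hE hend => ?_)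
    obtain ⟨d, hd⟩ := hend.1
    exact (hE hd).2 (E ∩ Ici (α := α) d) (fun x hx => ⟨(hE hx.1).1, hx.2⟩)
      (DownEnd.undual (α := α) (hend.tail hd))

/-- The strict upper bounds of `B` in `X`. -/
def UB (X B : Set α) : Set α := {x | x ∈ X ∧ ∀ y ∈ B, y < x}

/-- A directed set with big upper tails. -/
def Dir (ν : Cardinal.{u}) (B : Set α) : Prop :=
  (∀ y ∈ B, ∀ y' ∈ B, ∃ z ∈ B, y ≤ z ∧ y' ≤ z) ∧ ∀ y ∈ B, ν ≤ #(B ∩ Ici y : Set α)

lemma exists_ladder (hν : ℵ₀ ≤ ν) (hc : ChCol col) {X U Z : Set α} (hU : U ⊆ X) (hZ : Low X Z)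
    (hno : ∀ E ⊆ U ∩ Z, ¬ DownEnd ν E) :
    ∃ B ⊆ Z, Core ν U B ∧ Dir ν B ∧ #(U ∩ Z ∩ UB X B : Set α) < ν := by
  obtain ⟨B, ⟨hBZ, hB, hD⟩, hmax⟩ := zorn_ext (fun B => B ⊆ Z ∧ Core ν U B ∧ Dir ν B) (· < ·) (by
    intro c hc key hdir
    refine ⟨sUnion_subset fun B hB => (hc B hB).1,
      ⟨sUnion_subset fun B hB => (hc B hB).2.1.1, ?_, ?_⟩, ?_, ?_⟩
    · rintro y ⟨B, hB, hy⟩
      refine small_mono ((hc B hB).2.1.2.1 y hy) fun u hu => ⟨?_, hu.2⟩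
      by_contra huB
      exact hu.2.2 (key B hB y hy u hu.1 huB).le
    · rintro x hx hxU y ⟨B, hB, hy⟩ hi
      exact big_mono ((hc B hB).2.1.2.2 x hx (fun h => hxU ⟨B, hB, h⟩) y hy hi)
        (inter_subset_inter_left _ (subset_sUnion_of_mem hB))
    · rintro y ⟨B, hB, hy⟩ y' ⟨B', hB', hy'⟩
      obtain ⟨B'', hB'', h1, h2⟩ := hdir B hB B' hB'
      obtain ⟨z, hz, h⟩ := (hc B'' hB'').2.2.1 y (h1 hy) y' (h2 hy')
      exact ⟨z, ⟨B'', hB'', hz⟩, h⟩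
    · rintro y ⟨B, hB, hy⟩
      exact big_mono ((hc B hB).2.2.2 y hy) (inter_subset_inter_left _ (subset_sUnion_of_mem hB)))
  refine ⟨B, hBZ, hB, hD, ?_⟩
  by_contra hcon
  obtain ⟨R, hR1, hR2⟩ := exists_simple hν hc (not_lt.mp hcon)
    fun E hE => hno E (hE.trans inter_subset_left)
  obtain ⟨r0, hr0⟩ := nonempty_of_big hν hR2.1
  have hlt : ∀ y ∈ B, ∀ r ∈ R, y < r := fun y hy r hr => (hR1.1 hr).2.2 y hy
  have hnew : (B ∪ R) ⊆ Z ∧ Core ν U (B ∪ R) ∧ Dir ν (B ∪ R) := by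
    refine ⟨union_subset hBZ fun r hr => (hR1.1 hr).1.2,
      ⟨union_subset hB.1 fun r hr => (hR1.1 hr).1.1, ?_, ?_⟩, ?_, ?_⟩
    · rintro y (hy | hy)
      · refine small_mono (hB.2.1 y hy) ?_
        rintro u ⟨hu | hu, hi⟩
        · exact ⟨hu, hi⟩
        · exact absurd (hlt y hy u hu).le hi.2
      · refine small_mono (hR2.thin hy) ?_
        rintro u ⟨hu | hu, hi⟩
        · exact absurd (hlt u hu y hy).le hi.1
        · exact ⟨hu, hi⟩
    · intro x hx hxU y hy hi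
      have hxB : x ∉ B := fun h => hxU (Or.inl h)
      by_cases hx' : ∃ y ∈ B, Inc y x
      · obtain ⟨y', hy', hi'⟩ := hx'
        exact big_mono (hB.2.2 x hx hxB y' hy' hi') (inter_subset_inter_left _ subset_union_left)
      · push Not at hx'
        rcases hy with hy | hy
        · exact absurd hi (hx' y hy)
        · have hub : x ∈ UB X B := ⟨hU hx, fun b hb => by
            rcases not_inc.mp (hx' b hb) with h | h
            · exact lt_of_le_of_ne h fun h' => hxB (h' ▸ hb)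
            · exact absurd (h.trans (hlt b hb y hy).le) hi.2⟩
          refine big_mono (hR2.tail hν hy) fun u hu =>
            ⟨Or.inr hu.1, fun h => hi.1 (le_trans hu.2 h), fun h => hxU (Or.inr ?_)⟩
          exact hR1.2 x ⟨⟨hx, hZ.2 x (hU hx) u (hR1.1 hu.1).1.2 h⟩, hub⟩ u hu.1 h
    · rintro y (hy | hy) y' (hy' | hy')
      · obtain ⟨z, hz, h⟩ := hD.1 y hy y' hy'
        exact ⟨z, Or.inl hz, h⟩
      · exact ⟨y', Or.inr hy', (hlt y hy y' hy').le, le_rfl⟩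
      · exact ⟨y, Or.inr hy, le_rfl, (hlt y' hy' y hy).le⟩
      · obtain ⟨z, hz, h⟩ := hR2.directed hν hy hy'
        exact ⟨z, Or.inr hz, h⟩
    · rintro y (hy | hy)
      · exact big_mono (hD.2 y hy) (inter_subset_inter_left _ subset_union_left)
      · exact big_mono (hR2.tail hν hy) (inter_subset_inter_left _ subset_union_right)
  have := hmax _ hnew subset_union_left (by
    rintro y hy u (hu | hu) huB
    · exact absurd hu huB
    · exact hlt y hy u hu)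
  exact lt_irrefl _ (hlt r0 (this (Or.inr hr0)) r0 hr0)

lemma dir_bound {B : Set α} (hne : B.Nonempty)
    (hD : ∀ y ∈ B, ∀ y' ∈ B, ∃ z ∈ B, y ≤ z ∧ y' ≤ z) {κ : Type} [Finite κ] (z : κ → α)
    (hz : ∀ i, z i ∈ B) : ∃ y ∈ B, ∀ i, z i ≤ y := by
  have : ∀ s : Set κ, s.Finite → ∃ y ∈ B, ∀ i ∈ s, z i ≤ y := by
    intro s hs
    induction s, hs using Set.Finite.induction_on with
    | empty => obtain ⟨y, hy⟩ := hne; exact ⟨y, hy, fun _ h => h.elim⟩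
    | @insert a s _ _ ih =>
      obtain ⟨y, hy, h⟩ := ih
      obtain ⟨w, hw, h1, h2⟩ := hD y hy (z a) (hz a)
      refine ⟨w, hw, ?_⟩
      rintro i (rfl | hi)
      · exact h2
      · exact (h i hi).trans h1
  obtain ⟨y, hy, h⟩ := this univ finite_univ
  exact ⟨y, hy, fun i => h i trivial⟩

/-- The elements of colour `l` in `Z` with a big upper tail of colour `l` in `Z`. -/
def Hd (ν : Cardinal.{u}) (col : α → ι) (l : ι) (Z : Set α) : Set α :=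
  {d | d ∈ Z ∩ col ⁻¹' {l} ∧ ν ≤ #(Z ∩ col ⁻¹' {l} ∩ Ici d : Set α)}

lemma exists_state (hν : ℵ₀ ≤ ν) (hc : ChCol col) {X Z B : Set α} (hZX : Z ⊆ X) (hne : B.Nonempty)
    (hBZ : B ⊆ Z) (hD : Dir ν B) (hsm : #(Z ∩ UB X B : Set α) < ν) :
    ∃ l, UB X B = UB X (Hd ν col l Z) ∧ (Hd ν col l Z ∩ B).Nonempty := by
  have h1 : ∃ l, ∀ y ∈ B, ν ≤ #(B ∩ col ⁻¹' {l} ∩ Ici y : Set α) := by
    by_contra hcon
    push Not at hcon
    choose y hy1 hy2 using hcon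
    obtain ⟨z, hz, hz'⟩ := dir_bound hne hD.1 y hy1
    refine absurd (hD.2 z hz) (not_le.mpr (small_mono (small_iUnion hν _ hy2) fun x hx => ?_))
    exact mem_iUnion.mpr ⟨col x, ⟨hx.1, rfl⟩, le_trans (hz' _) hx.2⟩
  obtain ⟨l, hl⟩ := h1
  have hE : ∀ e ∈ B ∩ col ⁻¹' {l}, e ∈ Hd ν col l Z := fun e he =>
    ⟨⟨hBZ he.1, he.2⟩, big_mono (hl e he.1) fun x hx => ⟨⟨hBZ hx.1.1, hx.1.2⟩, hx.2⟩⟩
  have hcof : ∀ y ∈ B, ∃ e ∈ B ∩ col ⁻¹' {l}, y ≤ e := fun y hy => by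
    obtain ⟨e, he⟩ := nonempty_of_big hν (hl y hy)
    exact ⟨e, he.1, he.2⟩
  refine ⟨l, Subset.antisymm (fun x hx => ⟨hx.1, fun h hh => ?_⟩) (fun x hx => ⟨hx.1, fun y hy => ?_⟩),
    ?_⟩
  · by_contra hcon
    refine absurd hh.2 (not_le.mpr (small_mono hsm fun u hu => ⟨hu.1.1, hZX hu.1.1, fun y hy => ?_⟩))
    obtain ⟨e, he, hye⟩ := hcof y hy
    have hne' : ¬ h ≤ e := fun h' => hcon (h'.trans_lt (hx.2 e he.1))
    rcases hc h e (by rw [hh.1.2, he.2]) with h' | h'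
    · exact absurd h' hne'
    · exact (hye.trans_lt (lt_of_le_not_ge h' hne')).trans_le hu.2
  · obtain ⟨e, he, hye⟩ := hcof y hy
    exact hye.trans_lt (hx.2 e (hE e he))
  · obtain ⟨y, hy⟩ := hne
    obtain ⟨e, he, -⟩ := hcof y hy
    exact ⟨e, hE e he, he.1⟩

/-- The infinite regress: an increasing sequence of upper sets. -/
lemma hasCore_of_regress (hν : ℵ₀ ≤ ν) (hc : ChCol col) {X J : Set α} (hJ : Low X J)
    (V : ℕ → Set α) (hV : ∀ n, Upp X (V n)) (hmono : Monotone V)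
    (hno : ∀ n, ∀ E ⊆ V n ∩ J, ¬ DownEnd ν E)
    (hbig : ∀ n, ν ≤ #((V (n + 1) \ V n) ∩ J : Set α)) : HasCore ν X := by
  let Z : ℕ → Set α := fun m => J \ V m
  have hZ : ∀ m, Low X (Z m) := fun m => ⟨fun x hx => hJ.1 hx.1, fun u hu z hz h =>
    ⟨hJ.2 u hu z hz.1 h, fun h' => hz.2 ((hV m).2 z (hJ.1 hz.1) u h' h)⟩⟩
  let Good : ℕ → Set (Set α) := fun m => {U | #(U ∩ Z m : Set α) < ν ∧
    ∃ B n, B.Nonempty ∧ B ⊆ Z m ∧ B ⊆ V n ∧ Dir ν B ∧ U = UB X B}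
  have hstate : ∀ m, ∀ U ∈ Good m, ∃ l, U = UB X (Hd ν col l (Z m)) ∧
      ∃ n, (Hd ν col l (Z m) ∩ V n).Nonempty := by
    rintro m U ⟨h1, B, n, h2, h3, h4, h5, rfl⟩
    obtain ⟨l, hl1, h, hl2⟩ := exists_state hν hc (hZ m).1 h2 h3 h5 (by rwa [inter_comm])
    exact ⟨l, hl1, n, h, hl2.1, h4 hl2.2⟩
  have hfin : ∀ m, (Good m).Finite := fun m =>
    (finite_range fun l => UB X (Hd ν col l (Z m))).subset fun U hU => by
      obtain ⟨l, hl, -⟩ := hstate m U hU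
      exact ⟨l, hl.symm⟩
  have hsubV : ∀ {B : Set α} {n : ℕ}, B.Nonempty → B ⊆ V n → UB X B ⊆ V n :=
    fun ⟨b, hb⟩ h x hx => (hV _).2 x hx.1 b (h hb) (hx.2 b hb).le
  have hlad : ∀ m n (U : Set α), Upp X U → U ⊆ V n → ∃ B ⊆ Z m, Core ν U B ∧ Dir ν B ∧
      #(U ∩ Z m ∩ UB X B : Set α) < ν ∧ (B.Nonempty → UB X B ∈ Good m ∧ UB X B ⊆ U) := by
    intro m n U hU hUV
    obtain ⟨B, h1, h2, h3, h4⟩ := exists_ladder hν hc hU.1 (hZ m)
      fun E hE => hno n E fun x hx => ⟨hUV (hE hx).1, (hE hx).2.1⟩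
    refine ⟨B, h1, h2, h3, h4, fun hne => ?_⟩
    have hsub : UB X B ⊆ U := by
      obtain ⟨b, hb⟩ := hne
      exact fun x hx => hU.2 x hx.1 b (h2.1 hb) (hx.2 b hb).le
    exact ⟨⟨small_mono h4 fun x hx => ⟨⟨hsub hx.1, hx.2⟩, hx.1⟩, B, n, hne, h1, h2.1.trans hUV, h3,
      rfl⟩, hsub⟩
  have hne : ∀ m, (Good m).Nonempty := by
    intro m
    obtain ⟨B, -, -, -, h4, h5⟩ := hlad m (m + 1) (V (m + 1)) (hV _) subset_rfl
    refine ⟨_, (h5 ?_).1⟩
    by_contra hB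
    rw [not_nonempty_iff_eq_empty] at hB
    subst hB
    exact absurd (hbig m) (not_le.mpr (small_mono h4 fun x hx =>
      ⟨⟨hx.1.1, hx.2, hx.1.2⟩, hJ.1 hx.2, fun _ h => h.elim⟩))
  have hstep : ∀ m, ∀ U ∈ Good (m + 1), ∃ U' ∈ Good m, ∃ B, Core ν U B ∧ Dir ν B ∧
      U' = U ∩ UB X B ∧ (B.Nonempty → UB X B ⊆ U) := by
    rintro m U ⟨h1, B0, n, h2, h3, h4, h5, rfl⟩
    have hU : Upp X (UB X B0) := ⟨fun x hx => hx.1, fun u hu z hz h =>
      ⟨hu, fun y hy => (hz.2 y hy).trans_le h⟩⟩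
    obtain ⟨B, g1, g2, g3, g4, g5⟩ := hlad m n _ hU (hsubV h2 h4)
    by_cases hB : B.Nonempty
    · exact ⟨_, (g5 hB).1, B, g2, g3, (inter_eq_right.mpr (g5 hB).2).symm, fun _ => (g5 hB).2⟩
    · refine ⟨UB X B0, ⟨small_mono g4 fun x hx => ⟨hx, hx.1.1, fun y hy => absurd ⟨y, hy⟩ hB⟩,
        B0, n, h2, fun x hx => ⟨(h3 hx).1, fun h => (h3 hx).2 (hmono (Nat.le_succ m) h)⟩, h4, h5,
        rfl⟩, B, g2, g3, ?_, fun h => absurd h hB⟩
      exact Subset.antisymm (fun x hx => ⟨hx, hx.1, fun y hy => absurd ⟨y, hy⟩ hB⟩)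
        inter_subset_left
  obtain ⟨U, hU⟩ := konig Good hfin hne _ hstep
  choose B hB1 hB2 hB3 hB4 using fun m => (hU m).2
  have hUmono : Monotone U := monotone_nat_of_le_succ fun m => by
    rw [hB3 m]; exact inter_subset_left
  have hUX : ∀ m, U m ⊆ X := fun m => by
    obtain ⟨-, B', n, -, -, -, -, h⟩ := (hU m).1
    rw [h]
    exact fun x hx => hx.1
  have hinf : ∀ m0, ∃ k, m0 ≤ k ∧ (B k).Nonempty := by
    intro m0
    by_contra hcon
    push Not at hcon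
    have hconst : ∀ k, U (m0 + k) = U m0 := by
      intro k
      induction k with
      | zero => rfl
      | succ k ih =>
        rw [← ih, hB3 (m0 + k), hcon (m0 + k) (by omega)]
        exact Subset.antisymm (fun x hx => ⟨hx, hUX _ hx, fun _ h => h.elim⟩) inter_subset_left
    choose l hl1 hl2 using fun k => hstate (m0 + k) _ (hU (m0 + k)).1
    obtain ⟨l0, hl0⟩ := Finite.exists_infinite_fiber l
    have hinf : (l ⁻¹' {l0}).Infinite := Set.infinite_coe_iff.mp hl0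
    obtain ⟨k1, hk1⟩ := hinf.nonempty
    obtain ⟨n, h, hh1, hh2⟩ := hl2 k1
    obtain ⟨k2, hk2, hlt⟩ := hinf.exists_gt n
    have hll : l k2 = l k1 := by rw [mem_preimage, mem_singleton_iff] at hk1 hk2; rw [hk1, hk2]
    have hmem : h ∈ UB X (Hd ν col (l k2) (Z (m0 + k2))) := by
      refine ⟨hJ.1 hh1.1.1.1, fun d hd => ?_⟩
      have hnle : ¬ h ≤ d := fun h' => hd.1.1.2
        ((hV _).2 d (hJ.1 hd.1.1.1) h (hmono (by omega : n ≤ m0 + k2) hh2) h')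
      rcases hc h d (by rw [hh1.1.2, hd.1.2, hll]) with h' | h'
      · exact absurd h' hnle
      · exact lt_of_le_not_ge h' hnle
    rw [← hl1, hconst, ← hconst k1, hl1] at hmem
    exact lt_irrefl _ (hmem.2 h hh1)
  have hlt : ∀ m k, m < k → ∀ y ∈ B m, ∀ u ∈ B k, u < y := by
    intro m k hmk y hy u hu
    have : y ∈ U k := hUmono hmk ((hB1 m).1 hy)
    rw [hB3 k] at this
    exact this.2.2 u hu
  refine ⟨⋃ m, B m, ?_, iUnion_subset fun m => (hB1 m).1.trans (hUX _), ?_, ?_⟩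
  · obtain ⟨k, -, b, hb⟩ := hinf 0
    exact ⟨b, mem_iUnion.mpr ⟨k, hb⟩⟩
  · intro y hy
    obtain ⟨m, hm⟩ := mem_iUnion.mp hy
    refine small_mono ((hB1 m).2.1 y hm) fun u hu => ⟨?_, hu.2⟩
    obtain ⟨k, hk⟩ := mem_iUnion.mp hu.1
    rcases lt_trichotomy m k with h | h | h
    · exact absurd (hlt m k h y hm u hk).le hu.2.1
    · rwa [h]
    · exact absurd (hlt k m h u hk y hm).le hu.2.2
  · intro x hx hxB y hy hi
    obtain ⟨m, hm⟩ := mem_iUnion.mp hy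
    have hxk : ∀ k, x ∉ B k := fun k h => hxB (mem_iUnion.mpr ⟨k, h⟩)
    by_contra hcon
    have hub : ∀ k, m < k → x ∈ UB X (B k) := by
      intro k hk
      refine ⟨hx, fun y' hy' => ?_⟩
      by_contra hn
      have hn' : ¬ y' ≤ x := fun h => hn (lt_of_le_of_ne h fun h' => hxk k (h' ▸ hy'))
      exact hcon (big_mono ((hB2 k).2 y' hy') fun u hu => ⟨mem_iUnion.mpr ⟨k, hu.1⟩,
        fun h => hn' (le_trans hu.2 h), fun h => hi.2 (h.trans (hlt m k hk y hm u hu.1).le)⟩)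
    have hnot : ∀ j, x ∉ U (m + 1 + j) := by
      intro j
      induction j with
      | zero =>
        exact fun h => hcon (big_mono ((hB1 m).2.2 x h (hxk m) y hm hi)
          (inter_subset_inter_left _ (subset_iUnion B m)))
      | succ j ih =>
        intro h
        apply ih
        rw [hB3]
        exact ⟨h, hub _ (by omega)⟩
    obtain ⟨k, hk, hkne⟩ := hinf (m + 1)
    have := hB4 k hkne (hub k (by omega))
    exact hnot (k - m) (by rwa [show m + 1 + (k - m) = k + 1 by omega])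

end Pool.Agent.P.MP_6ec1b7_co
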