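import Pool.Agent.P.MP_6ec1b7_co.Core

/-!
Every set has a full core.
-/

set_option autoImplicit false

open Set Cardinal

namespace Pool.Agent.P.MP_6ec1b7_co

universe u

variable {α : Type u} [PartialOrder α] {ν : Cardinal.{u}} {ι : Type} [Finite ι] {col : α → ι}

/-- The lower closure of `F` in `X`. -/
def LC (X F : Set α) : Set α := {x | x ∈ X ∧ ∃ e ∈ F, x ≤ e}

lemma exists_simple_dual (hν : ℵ₀ ≤ ν) (hc : ChCol col) {Y : Set α} (hY : ν ≤ #Y)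
    (hno : ∀ E ⊆ Y, ¬ UpEnd ν E) : ∃ R : Set α, Upp Y R ∧ R.Nonempty ∧
      (∀ r ∈ R, ν ≤ #(R ∩ Iic r : Set α)) ∧ ∀ r ∈ R, #(R \ Iic r : Set α) < ν := by
  obtain ⟨R1, hR1, hR1'⟩ := exists_simple (α := αᵒᵈ) hν hc.dual hY
    fun E' hsub hend => hno E' hsub (DownEnd.undual (α := α) hend)
  exact ⟨R1, hR1, nonempty_of_big hν hR1'.1, fun r hr => hR1'.tail hν hr, hR1'.2⟩

lemma upEnd_of_seq (hν : ℵ₀ ≤ ν) (hc : ChCol col) (Z : ℕ → Set α)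
    (hZ : ∀ n, Upp (Z n) (Z (n + 1))) (hbig : ∀ n, ν ≤ #(Z n \ Z (n + 1) : Set α)) :
    ∃ E : Set α, E ⊆ Z 0 ∧ UpEnd ν E := by
  obtain ⟨G, hG1, hG2⟩ := downEnd_of_seq (α := αᵒᵈ) hν hc.dual Z hZ hbig
  exact ⟨G, hG1, DownEnd.undual (α := α) hG2⟩

lemma hasCore_of_tame (hν : ℵ₀ ≤ ν) (hc : ChCol col) {X E F : Set α} (hE : E ⊆ X) (hF : F ⊆ X)
    (hE' : DownEnd ν E) (hF' : UpEnd ν F) {a b : α} (ha : a ∈ E) (hb : b ∈ F) (hab : a ≤ b)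
    (htame : ∀ c ∈ E, ∀ E' ⊆ LC X F ∩ Ici c, ¬ DownEnd ν E') : HasCore ν X := by
  set J := LC X F with hJdef
  have hJ : Low X J := ⟨fun x hx => hx.1, fun u hu z ⟨_, e, he, hz⟩ h => ⟨hu, e, he, h.trans hz⟩⟩
  by_cases hcase : ∀ c ∈ E, ∃ c' ∈ E, c' ≤ c ∧ ν ≤ #((J ∩ Ici c') \ Ici c : Set α)
  · have hstep : ∀ c : E, ∃ c' : E, c'.1 ≤ c.1 ∧ ν ≤ #((J ∩ Ici c'.1) \ Ici c.1 : Set α) := by
      rintro ⟨c, hc⟩
      obtain ⟨c', h1, h2⟩ := hcase c hc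
      exact ⟨⟨c', h1⟩, h2⟩
    choose φ hφ using hstep
    refine hasCore_of_regress hν hc hJ (fun n => X ∩ Ici (φ^[n] ⟨a, ha⟩).1)
      (fun n => ⟨inter_subset_left, fun u hu z hz h => ⟨hu, le_trans hz.2 h⟩⟩)
      (monotone_nat_of_le_succ fun n x hx => ⟨hx.1, ?_⟩)
      (fun n E' hsub => htame _ (φ^[n] ⟨a, ha⟩).2 E' fun x hx => ⟨(hsub hx).2, (hsub hx).1.2⟩)
      (fun n => ?_)
    · rw [Function.iterate_succ_apply']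
      exact le_trans (hφ _).1 hx.2
    · rw [Function.iterate_succ_apply']
      exact big_mono (hφ _).2 fun x hx => ⟨⟨⟨hx.1.1.1, hx.1.2⟩, fun h => hx.2 h.2⟩, hx.1.1⟩
  push Not at hcase
  obtain ⟨c0, hc0, hc0'⟩ := hcase
  obtain ⟨c, hcE, hcc0, hca⟩ : ∃ c ∈ E, c ≤ c0 ∧ c ≤ a := by
    rcases hE'.2.1 c0 hc0 a ha with h | h
    · exact ⟨c0, hc0, le_rfl, h⟩
    · exact ⟨a, ha, h, le_rfl⟩
  have hsm : ∀ c' ∈ E, c' ≤ c → #((J ∩ Ici c') \ Ici c : Set α) < ν := fun c' hc' h =>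
    small_mono (hc0' c' hc' (h.trans hcc0)) fun x hx => ⟨hx.1, fun h' => hx.2 (hcc0.trans h')⟩
  set Y := {x | (x ∈ J ∧ ∃ e ∈ E, e ≤ x) ∧ ¬ c ≤ x} with hY
  have hYbig : ν ≤ #Y := by
    refine big_of_subset_union hν (hE'.2.2 c hcE) (small_singleton hν c) fun x hx => ?_
    by_cases h : x = c
    · exact Or.inr h
    · exact Or.inl ⟨⟨⟨hE hx.1, b, hb, le_trans hx.2 (hca.trans hab)⟩, x, hx.1, le_rfl⟩,
        fun h' => h (le_antisymm hx.2 h')⟩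
  have hYno : ∀ E' ⊆ Y, ¬ UpEnd ν E' := by
    intro E' hsub hend
    obtain ⟨d, hd⟩ := hend.1
    obtain ⟨⟨-, e, he, hed⟩, hcd⟩ := hsub hd
    have hec : e ≤ c := by
      rcases hE'.2.1 e he c hcE with h | h
      · exact h
      · exact absurd (h.trans hed) hcd
    exact absurd (hend.2.2 d hd) (not_le.mpr (small_mono (hsm e he hec) fun x hx =>
      ⟨⟨(hsub hx.1).1.1, hed.trans hx.2⟩, (hsub hx.1).2⟩))
  obtain ⟨R1, hR1, hR1ne, hR1tail, hR1sm⟩ := exists_simple_dual hν hc hYbig hYno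
  set U := {x | x ∈ J ∧ c ≤ x ∧ ∃ r ∈ R1, r ≤ x} with hU
  have hUbig : ν ≤ #U := by
    obtain ⟨r, hr⟩ := hR1ne
    obtain ⟨-, e, he, hre⟩ := (hR1.1 hr).1.1
    obtain ⟨e', he', h1, h2⟩ : ∃ e' ∈ F, e ≤ e' ∧ b ≤ e' := by
      rcases hF'.2.1 e he b hb with h | h
      · exact ⟨b, hb, h, le_rfl⟩
      · exact ⟨e, he, le_rfl, h⟩
    exact big_mono (hF'.2.2 e' he') fun x hx => ⟨⟨hF hx.1, x, hx.1, le_rfl⟩,
      (hca.trans (hab.trans h2)).trans hx.2, r, hr, (hre.trans h1).trans hx.2⟩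
  obtain ⟨R2, hR2, hR2'⟩ := exists_simple hν hc hUbig
    fun E' hsub => htame c hcE E' fun x hx => ⟨(hsub hx).1, (hsub hx).2.1⟩
  set B := {x | x ∈ X ∧ (∃ r ∈ R1, r ≤ x) ∧ ∃ s ∈ R2, x ≤ s} with hB
  have hBsub : B ⊆ R1 ∪ R2 := by
    rintro x ⟨hx, ⟨r, hr, hrx⟩, s, hs, hxs⟩
    have hxJ : x ∈ J := hJ.2 x hx s (hR2.1 hs).1 hxs
    by_cases h : c ≤ x
    · exact Or.inr (hR2.2 x ⟨hxJ, h, r, hr, hrx⟩ s hs hxs)
    · obtain ⟨e, he, her⟩ := (hR1.1 hr).1.2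
      exact Or.inl (hR1.2 x ⟨⟨hxJ, e, he, her.trans hrx⟩, h⟩ r hr hrx)
  have hR2B : R2 ⊆ B := fun s hs => ⟨hJ.1 (hR2.1 hs).1, (hR2.1 hs).2.2, s, hs, le_rfl⟩
  refine ⟨B, (nonempty_of_big hν hR2'.1).mono hR2B, fun x hx => hx.1, ?_, ?_⟩
  · rintro y ⟨-, ⟨r, hr, hry⟩, s, hs, hys⟩
    refine small_of_subset_union hν (hR1sm r hr) (hR2'.2 s hs) fun u hu => ?_
    rcases hBsub hu.1 with h | h
    · exact Or.inl ⟨h, fun h' => hu.2.1 (le_trans h' hry)⟩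
    · exact Or.inr ⟨h, fun h' => hu.2.2 (hys.trans h')⟩
  · rintro x hx hxB y ⟨-, ⟨r, hr, hry⟩, s, hs, hys⟩ hi
    by_cases h : ∃ s' ∈ R2, x ≤ s'
    · have h' : ¬ ∃ r' ∈ R1, r' ≤ x := fun h' => hxB ⟨hx, h', h⟩
      exact big_mono (hR1tail r hr) fun u hu => ⟨⟨hJ.1 (hR1.1 hu.1).1.1, ⟨u, hu.1, le_rfl⟩, s, hs,
        le_trans hu.2 (hry.trans hys)⟩, fun h'' => h' ⟨u, hu.1, h''⟩,
        fun h'' => hi.2 (h''.trans (le_trans hu.2 hry))⟩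
    · exact big_mono (hR2'.tail hν hs) fun u hu => ⟨hR2B hu.1,
        fun h'' => hi.1 (hys.trans (le_trans hu.2 h'')), fun h'' => h ⟨u, hu.1, h''⟩⟩

lemma hasCore_of_tame_dual (hν : ℵ₀ ≤ ν) (hc : ChCol col) {X E F : Set α} (hE : E ⊆ X)
    (hF : F ⊆ X) (hE' : DownEnd ν E) (hF' : UpEnd ν F) {a b : α} (ha : a ∈ E) (hb : b ∈ F)
    (hab : a ≤ b)
    (htame : ∀ e ∈ F, ∀ F' : Set α, (∀ x ∈ F', x ∈ X ∧ (∃ d ∈ E, d ≤ x) ∧ x ≤ e) → ¬ UpEnd ν F') :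
    HasCore ν X :=
  HasCore.undual (hasCore_of_tame (α := αᵒᵈ) hν hc.dual hF hE hF'.dual hE'.dual hb ha hab
    fun e he F' hsub hend => htame e he F' (fun _ hx => ⟨(hsub hx).1.1, (hsub hx).1.2, (hsub hx).2⟩)
      (DownEnd.undual (α := α) hend))

lemma paired_inside (hν : ℵ₀ ≤ ν) (hc : ChCol col) {X : Set α} (hX : ¬ HasCore ν X) {E F : Set α}
    (hE : E ⊆ X) (hF : F ⊆ X) (hE' : DownEnd ν E) (hF' : UpEnd ν F) {a b : α} (ha : a ∈ E)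
    (hb : b ∈ F) (hab : a ≤ b) : ∃ c ∈ E, ∃ e ∈ F, Paired ν (X ∩ Icc c e) := by
  have h1 : ∃ c ∈ E, ∃ E' ⊆ LC X F ∩ Ici c, DownEnd ν E' := by
    by_contra hcon
    push Not at hcon
    exact hX (hasCore_of_tame hν hc hE hF hE' hF' ha hb hab hcon)
  obtain ⟨c, hcE, E', hsub, hend⟩ := h1
  obtain ⟨d0, hd0⟩ := hend.1
  obtain ⟨-, e0, he0, hde⟩ := (hsub hd0).1
  have h2 : ∃ e ∈ F, ∃ F' : Set α, (∀ x ∈ F', x ∈ X ∧ (∃ d ∈ E', d ≤ x) ∧ x ≤ e) ∧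
      UpEnd ν F' := by
    by_contra hcon
    refine hX (hasCore_of_tame_dual hν hc (fun x hx => (hsub hx).1.1) hF hend hF' hd0 he0 hde
      fun e he F' h1 h2 => hcon ⟨e, he, F', h1, h2⟩)
  obtain ⟨e, heF, F', hsub'', hend'⟩ := h2
  obtain ⟨t, ht⟩ := hend'.1
  obtain ⟨-, ⟨d, hd, hdt⟩, hte⟩ := hsub'' t ht
  refine ⟨c, hcE, e, heF, E' ∩ Iic d, F', fun x hx => ⟨(hsub hx.1).1.1, (hsub hx.1).2,
    le_trans hx.2 (le_trans (α := α) hdt hte)⟩, fun x hx => ?_, hend.tail hd, hend', d, ⟨hd, le_rfl⟩,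
    t, ht, hdt⟩
  obtain ⟨h1, ⟨d', hd', h2⟩, h3⟩ := hsub'' x hx
  exact ⟨h1, le_trans (α := α) (hsub hd').2 h2, h3⟩

lemma paired_le {X : Set α} {a b : α} (h : Paired ν (X ∩ Icc a b)) : a ≤ b := by
  obtain ⟨E, F, h1, -, -, -, x, hx, -⟩ := h
  exact (h1 hx).2.1.trans (h1 hx).2.2

lemma paired_icc_mono {X : Set α} {a b a' b' : α} (h : Paired ν (X ∩ Icc a b)) (ha : a' ≤ a)
    (hb : b ≤ b') : Paired ν (X ∩ Icc a' b') :=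
  h.mono (inter_subset_inter_right _ (Icc_subset_Icc ha hb))

lemma paired_split (hν : ℵ₀ ≤ ν) (hc : ChCol col) {X : Set α} (hX : ¬ HasCore ν X) {a b : α}
    (h : Paired ν (X ∩ Icc a b)) : ∃ m, Paired ν (X ∩ Icc a m) ∧ Paired ν (X ∩ Icc m b) := by
  have hstep : ∀ p : {p : α × α // Paired ν (X ∩ Icc p.1 p.2)},
      ∃ q : {p : α × α // Paired ν (X ∩ Icc p.1 p.2)}, q.1.2 ≤ p.1.2 ∧
        ∃ E ⊆ X ∩ Icc p.1.1 p.1.2, DownEnd ν E ∧ q.1.1 ∈ E := by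
    rintro ⟨⟨a, b⟩, E, F, h1, h2, h3, h4, x, hx, y, hy, hxy⟩
    obtain ⟨c, hc', e, he, hp⟩ := paired_inside hν hc hX (h1.trans inter_subset_left)
      (h2.trans inter_subset_left) h3 h4 hx hy hxy
    exact ⟨⟨(c, e), hp⟩, (h2 he).2.2, E, h1, h3, hc'⟩
  choose φ hφ1 E hφ2 hφ3 hφ4 using hstep
  let p : ℕ → {p : α × α // Paired ν (X ∩ Icc p.1 p.2)} := fun n => φ^[n] ⟨(a, b), h⟩
  have hp : ∀ n, p (n + 1) = φ (p n) := fun n => Function.iterate_succ_apply' _ _ _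
  have hmono : Monotone fun n => (p n).1.1 := monotone_nat_of_le_succ fun n => by
    rw [hp]; exact (hφ2 _ (hφ4 _)).2.1
  have hb : ∀ n, (p n).1.2 ≤ b := by
    intro n
    induction n with
    | zero => exact le_rfl
    | succ n ih => rw [hp]; exact (hφ1 _).trans ih
  obtain ⟨G, hG1, hG2⟩ := upEnd_of_seq hν hc
    (fun n => {x : α | (x ∈ X ∧ ∃ k, x ≤ (p k).1.1) ∧ (p (n + 1)).1.1 ≤ x})
    (fun n => ⟨fun x hx => ⟨hx.1, le_trans (α := α) (hmono (Nat.le_succ _)) hx.2⟩,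
      fun u hu z hz h => ⟨hu.1, le_trans (α := α) hz.2 h⟩⟩)
    (fun n => by
      have hmem : (p (n + 1 + 1)).1.1 ∈ E (p (n + 1)) := by rw [hp (n + 1)]; exact hφ4 _
      refine big_of_subset_union (α := α) hν ((hφ3 _).2.2 _ hmem)
        (small_singleton hν (p (n + 1 + 1)).1.1) fun x hx => ?_
      by_cases h' : x = (p (n + 1 + 1)).1.1
      · exact Or.inr h'
      · exact Or.inl ⟨⟨⟨(hφ2 _ hx.1).1, n + 1 + 1, hx.2⟩, (hφ2 _ hx.1).2.1⟩,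
          fun h'' => h' (le_antisymm hx.2 h''.2)⟩)
  obtain ⟨t, ht⟩ := hG2.1
  have hmem : (p 1).1.1 ∈ E (p 0) := by rw [hp]; exact hφ4 _
  obtain ⟨c, hc', e, he, hpair⟩ := paired_inside hν hc hX ((hφ2 (p 0)).trans inter_subset_left)
    (fun x hx => (hG1 hx).1.1) (hφ3 _) hG2 hmem ht (hG1 ht).2
  obtain ⟨k, hk⟩ := (hG1 he).1.2
  exact ⟨(p k).1.1, paired_icc_mono hpair (hφ2 _ hc').2.1 hk, paired_icc_mono (p k).2 le_rfl (hb k)⟩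

lemma hasCore_of_paired (hν : ℵ₀ ≤ ν) (hc : ChCol col) {X : Set α} (hP : Paired ν X) :
    HasCore ν X := by
  classical
  by_contra hX
  let P : α → α → Prop := fun a b => Paired ν (X ∩ Icc a b)
  have Ple : ∀ {a b}, P a b → a ≤ b := paired_le
  have Pmono : ∀ {a b a' b'}, P a b → a' ≤ a → b ≤ b' → P a' b' := paired_icc_mono
  have hin : ∀ K ⊆ X, Paired ν K → ∃ c ∈ K, ∃ e ∈ K, P c e := by
    rintro K hK ⟨E, F, h1, h2, h3, h4, x, hx, y, hy, hxy⟩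
    obtain ⟨c, hc', e, he, hp⟩ := paired_inside hν hc hX (h1.trans hK) (h2.trans hK) h3 h4 hx hy hxy
    exact ⟨c, h1 hc', e, h2 he, hp⟩
  let Λ : α × α → Set ι := fun p => {l | ν ≤ #(X ∩ Icc p.1 p.2 ∩ col ⁻¹' {l} : Set α)}
  obtain ⟨⟨a0, b0⟩, hp0, hmin⟩ : ∃ p ∈ {p : α × α | P p.1 p.2},
      ∀ q ∈ {p : α × α | P p.1 p.2}, (Λ p).ncard ≤ (Λ q).ncard := by
    obtain ⟨c, -, e, -, h⟩ := hin X subset_rfl hP
    exact ⟨Function.argminOn (fun p => (Λ p).ncard) {p : α × α | P p.1 p.2} ⟨(c, e), h⟩,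
      Function.argminOn_mem _ _ _, fun q hq =>
        Function.argminOn_le (fun p => (Λ p).ncard) {p : α × α | P p.1 p.2} hq⟩
  replace hp0 : P a0 b0 := hp0
  obtain ⟨l, hl⟩ := exists_big_col hν col (Paired.big hp0)
  have hl' : ∀ a b, a0 ≤ a → b ≤ b0 → P a b → ν ≤ #(X ∩ Icc a b ∩ col ⁻¹' {l} : Set α) := by
    intro a b ha hb hab
    have hsub : Λ (a, b) ⊆ Λ (a0, b0) := fun k hk => big_mono hk
      (inter_subset_inter_left _ (inter_subset_inter_right _ (Icc_subset_Icc ha hb)))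
    have := eq_of_subset_of_ncard_le hsub (hmin (a, b) hab) (toFinite _)
    have hmem : l ∈ Λ (a0, b0) := hl
    rw [← this] at hmem
    exact hmem
  set D := X ∩ Icc a0 b0 ∩ col ⁻¹' {l} with hD
  have hsplit : ∀ a b, a0 ≤ a → b ≤ b0 → P a b → ∃ d ∈ D, P a d ∧ P d b := by
    intro a b ha hb hab
    obtain ⟨m1, h1, h2⟩ := paired_split hν hc hX hab
    obtain ⟨m2, h3, h4⟩ := paired_split hν hc hX h2
    obtain ⟨d, hd⟩ := nonempty_of_big hν (hl' m1 m2 (ha.trans (Ple h1)) ((Ple h4).trans hb) h3)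
    exact ⟨d, ⟨⟨hd.1.1, (ha.trans (Ple h1)).trans hd.1.2.1, hd.1.2.2.trans ((Ple h4).trans hb)⟩,
      hd.2⟩, Pmono h1 le_rfl hd.1.2.1, Pmono h4 hd.1.2.2 le_rfl⟩
  let Long : α → Prop := fun x => ∃ d ∈ D, ∃ d' ∈ D, P d d' ∧ ¬ d ≤ x ∧ ¬ x ≤ d'
  let M : Set α := {x | x ∈ X ∧ ¬ Long x ∧ (∃ d ∈ D, d ≤ x ∧ P a0 d) ∧ ∃ d ∈ D, x ≤ d ∧ P d b0}
  let Sep : α → α → Prop := fun x y => ∃ d ∈ D, ∃ d' ∈ D, x ≤ d ∧ d' ≤ y ∧ P d d'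
  have hM1 : ∀ M' ⊆ M, M'.Nonempty → HasCore ν M' := by
    rintro M' hM' ⟨x0, hx0⟩
    have hself : ¬ Sep x0 x0 := by
      rintro ⟨d, -, d', -, h1, h2, h3⟩
      exact absurd (Paired.big h3) (not_le.mpr (small_mono (small_singleton hν x0) fun u hu =>
        le_antisymm (hu.2.2.trans h2) (h1.trans hu.2.1)))
    refine HasCore.of_closed (K := {x | x ∈ M' ∧ ¬ Sep x x0 ∧ ¬ Sep x0 x}) (fun x hx => hx.1)
      (fun z hz x hx hi => ⟨hz, ?_, ?_⟩)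
      (hasCore_of_not_paired hν hc ⟨x0, hx0, hself, hself⟩ fun hK => ?_)
    · rintro ⟨d, hd, d', hd', h1, h2, h3⟩
      obtain ⟨m1, hm1, g1, g2⟩ := hsplit d d' hd.1.2.1 hd'.1.2.2 h3
      obtain ⟨m2, hm2, g3, g4⟩ := hsplit m1 d' hm1.1.2.1 hd'.1.2.2 g2
      exact (hM' hx.1).2.1 ⟨m1, hm1, m2, hm2, g3, fun h => hi.2 (h1.trans ((Ple g1).trans h)),
        fun h => hx.2.1 ⟨m2, hm2, d', hd', h, h2, g4⟩⟩
    · rintro ⟨d, hd, d', hd', h1, h2, h3⟩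
      obtain ⟨m1, hm1, g1, g2⟩ := hsplit d d' hd.1.2.1 hd'.1.2.2 h3
      obtain ⟨m2, hm2, g3, g4⟩ := hsplit m1 d' hm1.1.2.1 hd'.1.2.2 g2
      exact (hM' hx.1).2.1 ⟨m1, hm1, m2, hm2, g3, fun h => hx.2.2 ⟨d, hd, m1, hm1, h1, h, g1⟩,
        fun h => hi.1 (h.trans ((Ple g4).trans h2))⟩
    · obtain ⟨c, hcK, e, heK, hce⟩ := hin _ (fun x hx => (hM' hx.1).1) hK
      obtain ⟨dc, hdc, hdc', -⟩ := (hM' hcK.1).2.2.1
      obtain ⟨de, hde, hde', -⟩ := (hM' heK.1).2.2.2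
      have hb' : e ≤ b0 := hde'.trans hde.1.2.2
      obtain ⟨m1, hm1, g1, g2⟩ := hsplit c e (hdc.1.2.1.trans hdc') hb' hce
      obtain ⟨m2, hm2, g3, g4⟩ := hsplit m1 e hm1.1.2.1 hb' g2
      obtain ⟨m3, hm3, g5, g6⟩ := hsplit m2 e hm2.1.2.1 hb' g4
      obtain ⟨m4, hm4, g7, g8⟩ := hsplit m3 e hm3.1.2.1 hb' g6
      exact (hM' hx0).2.1 ⟨m2, hm2, m3, hm3, g5,
        fun h => hcK.2.1 ⟨m1, hm1, m2, hm2, Ple g1, h, g3⟩,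
        fun h => heK.2.2 ⟨m3, hm3, m4, hm4, h, Ple g8, g7⟩⟩
  obtain ⟨B, hB1, hB2, hB3⟩ := exists_full hM1
  have hDch : Ch D := hc.ch _ l
  have hDM : ∀ u ∈ D, P a0 u → P u b0 → u ∈ M := by
    intro u hu h1 h2
    refine ⟨hu.1.1, ?_, ⟨u, hu, le_rfl, h1⟩, u, hu, le_rfl, h2⟩
    rintro ⟨d, hd, d', -, g1, g2, g3⟩
    rcases hDch d hd u hu with h | h
    · exact g2 h
    · exact g3 (h.trans (Ple g1))
  apply hX
  refine ⟨B, ?_, fun x hx => (hB1 hx).1, hB2, fun x hx hxB y hy hi => ?_⟩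
  · obtain ⟨d, hd, h1, h2⟩ := hsplit a0 b0 le_rfl le_rfl hp0
    by_cases h : d ∈ B
    · exact ⟨d, h⟩
    · exact (nonempty_of_big hν (hB3 d (hDM d hd h1 h2) h)).mono inter_subset_left
  by_cases hxM : x ∈ M
  · exact hB3 x hxM hxB
  have hlong : Long x := by
    by_contra hn
    apply hxM
    obtain ⟨d, hd, h1, h2⟩ := (hB1 hy).2.2.1
    obtain ⟨d', hd', h3, h4⟩ := (hB1 hy).2.2.2
    refine ⟨hx, hn, ?_, ?_⟩
    · obtain ⟨m, hm, g1, g2⟩ := hsplit a0 d le_rfl hd.1.2.2 h2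
      refine ⟨m, hm, ?_, g1⟩
      by_contra h
      exact hn ⟨m, hm, d, hd, g2, h, fun h' => hi.2 (h'.trans h1)⟩
    · obtain ⟨m, hm, g1, g2⟩ := hsplit d' b0 hd'.1.2.1 le_rfl h4
      refine ⟨m, hm, ?_, g2⟩
      by_contra h
      exact hn ⟨d', hd', m, hm, g1, fun h' => hi.1 (h3.trans h'), h⟩
  obtain ⟨d, hd, d', hd', h1, h2, h3⟩ := hlong
  have hN : ∀ u, d ≤ u → u ≤ d' → u ∈ N x := fun u g1 g2 =>
    ⟨fun h => h2 (g1.trans h), fun h => h3 (h.trans g2)⟩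
  obtain ⟨m1, hm1, g1, g2⟩ := hsplit d d' hd.1.2.1 hd'.1.2.2 h1
  obtain ⟨m2, hm2, g3, g4⟩ := hsplit m1 d' hm1.1.2.1 hd'.1.2.2 g2
  have hT := hl' m1 m2 hm1.1.2.1 hm2.1.2.2 g3
  by_cases hTB : X ∩ Icc m1 m2 ∩ col ⁻¹' {l} ⊆ B
  · exact big_mono hT fun u hu => ⟨hTB hu, hN u ((Ple g1).trans hu.1.2.1) (hu.1.2.2.trans (Ple g4))⟩
  · obtain ⟨u, hu, huB⟩ := not_subset.mp hTB
    have huM : u ∈ M := hDM u ⟨⟨hu.1.1, hm1.1.2.1.trans hu.1.2.1, hu.1.2.2.trans hm2.1.2.2⟩, hu.2⟩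
      (Pmono g1 hd.1.2.1 hu.1.2.1) (Pmono g4 hu.1.2.2 hd'.1.2.2)
    refine big_mono (hB3 u huM huB) fun v hv => ⟨hv.1, hN v ?_ ?_⟩
    · by_contra h
      exact (hB1 hv.1).2.1 ⟨d, hd, m1, hm1, g1, h, fun h' => hv.2.1 (h'.trans hu.1.2.1)⟩
    · by_contra h
      exact (hB1 hv.1).2.1 ⟨m2, hm2, d', hd', g4, fun h' => hv.2.2 (hu.1.2.2.trans h'), h⟩

/-- The core theorem. -/
theorem exists_full_core (hν : ℵ₀ ≤ ν) (hc : ChCol col) (X : Set α) : ∃ B, Full ν X B :=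
  exists_full fun Y _ hne => by
    by_cases h : Paired ν Y
    · exact hasCore_of_paired hν hc h
    · exact hasCore_of_not_paired hν hc hne h

end Pool.Agent.P.MP_6ec1b7_co
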