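import Pool.Agent.P.MP_6ec1b7_co.Main

/-!
Dilworth's theorem for posets of finite width, and the final assembly.
-/

set_option autoImplicit false

open Set

namespace Pool.Agent.P.MP_6ec1b7_co

universe u

variable {α : Type u} [PartialOrder α]

/-- Finite antichains. -/
def Anti (A : Finset α) : Prop := ∀ x ∈ A, ∀ y ∈ A, x ≤ y → x = y

omit [PartialOrder α] in
lemma surj_of_card (A : Finset α) (k : ℕ) (g : α → ℕ) (hinj : InjOn g A) (hlt : ∀ x ∈ A, g x < k)
    (hcard : A.card = k) (i : ℕ) (hi : i < k) : ∃ y ∈ A, g y = i := by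
  have h1 : A.image g ⊆ Finset.range k := by
    intro j hj
    obtain ⟨x, hx, rfl⟩ := Finset.mem_image.mp hj
    exact Finset.mem_range.mpr (hlt x hx)
  have h2 := Finset.eq_of_subset_of_card_le h1 (by
    rw [Finset.card_image_of_injOn hinj, Finset.card_range, hcard])
  have : i ∈ A.image g := h2 ▸ Finset.mem_range.mpr hi
  simpa using this

lemma dilworth_finite (X : Finset α) (k : ℕ) (hk : ∀ A ⊆ X, Anti A → A.card ≤ k) :
    ∃ g : α → ℕ, (∀ x ∈ X, g x < k) ∧ ∀ x ∈ X, ∀ y ∈ X, g x = g y → x ≤ y ∨ y ≤ x := by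
  classical
  induction X using Finset.strongInduction generalizing k with
  | H X ih =>
    rcases X.eq_empty_or_nonempty with rfl | hne
    · exact ⟨fun _ => 0, by simp, by simp⟩
    obtain ⟨a, ha⟩ := X.finite_toSet.exists_maximal hne
    have haX : a ∈ X := ha.1
    set X' := X.erase a with hX'
    have hX'X : X' ⊂ X := Finset.erase_ssubset haX
    obtain ⟨A0, hA0, hmax⟩ := Finset.exists_max_image (X'.powerset.filter Anti) Finset.card
      ⟨∅, by simp [Anti]⟩
    simp only [Finset.mem_filter, Finset.mem_powerset] at hA0 hmax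
    set k' := A0.card with hk'
    obtain ⟨g, hg1, hg2⟩ := ih X' hX'X k' fun A h1 h2 => hmax A ⟨h1, h2⟩
    have hsurj : ∀ A ⊆ X', Anti A → A.card = k' → ∀ i < k', ∃ y ∈ A, g y = i := by
      intro A h1 h2 h3
      refine surj_of_card A k' g (fun x hx y hy h => ?_) (fun x hx => hg1 x (h1 hx)) h3
      rcases hg2 x (h1 hx) y (h1 hy) h with h' | h'
      · exact h2 x hx y hy h'
      · exact (h2 y hy x hx h').symm
    have htop : ∀ i : Fin k', ∃ t ∈ X', g t = i ∧ (∃ A ⊆ X', Anti A ∧ A.card = k' ∧ t ∈ A) ∧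
        ∀ A ⊆ X', Anti A → A.card = k' → ∀ y ∈ A, g y = i → y ≤ t := by
      intro i
      obtain ⟨y0, hy0, hy0'⟩ := hsurj A0 hA0.1 hA0.2 rfl i i.2
      have hfin : ({y | y ∈ X' ∧ g y = i ∧ ∃ A ⊆ X', Anti A ∧ A.card = k' ∧ y ∈ A}).Finite :=
        X'.finite_toSet.subset fun y hy => hy.1
      obtain ⟨t, ht⟩ := hfin.exists_maximal ⟨y0, hA0.1 hy0, hy0', A0, hA0.1, hA0.2, rfl, hy0⟩
      refine ⟨t, ht.1.1, ht.1.2.1, ht.1.2.2, fun A h1 h2 h3 y hy hyi => ?_⟩
      rcases hg2 y (h1 hy) t ht.1.1 (hyi.trans ht.1.2.1.symm) with h | h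
      · exact h
      · exact ht.2 ⟨h1 hy, hyi, A, h1, h2, h3, hy⟩ h
    choose t ht1 ht2 ht3 ht4 using htop
    have htinj : Function.Injective t := fun i j h => Fin.ext (by rw [← ht2 i, ← ht2 j, h])
    have htanti : ∀ i j, t i ≤ t j → t i = t j := by
      intro i j h
      obtain ⟨A, h1, h2, h3, h4⟩ := ht3 j
      obtain ⟨y, hy, hyi⟩ := hsurj A h1 h2 h3 i i.2
      have h5 := ht4 i A h1 h2 h3 y hy hyi
      have h6 := h2 y hy _ h4 (h5.trans h)
      exact le_antisymm h (h6 ▸ h5)
    by_cases hcase : ∃ i, t i ≤ a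
    · obtain ⟨i, hi⟩ := hcase
      set K := X.filter fun z => z = a ∨ (g z = i ∧ z ≤ t i) with hK
      have hsub : X \ K ⊆ X' := fun z hz => by
        rw [Finset.mem_sdiff] at hz
        exact Finset.mem_erase.mpr ⟨fun h => hz.2 (Finset.mem_filter.mpr ⟨hz.1, Or.inl h⟩), hz.1⟩
      obtain ⟨g', hg'1, hg'2⟩ := ih (X \ K) (lt_of_le_of_lt hsub hX'X) (k' - 1) fun A h1 h2 => by
        have h3 := hmax A ⟨h1.trans hsub, h2⟩
        rcases h3.eq_or_lt with h4 | h4
        · obtain ⟨y, hy, hyi⟩ := hsurj A (h1.trans hsub) h2 h4 i i.2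
          have := Finset.mem_sdiff.mp (h1 hy)
          exact absurd (Finset.mem_filter.mpr ⟨this.1, Or.inr ⟨hyi,
            ht4 i A (h1.trans hsub) h2 h4 y hy hyi⟩⟩) this.2
        · omega
      have hk'k : k' ≤ k := hk A0 (hA0.1.trans hX'X.subset) hA0.2
      have hpos : 0 < k' := i.pos
      refine ⟨fun z => if z ∈ K then k' - 1 else g' z, fun z hz => ?_, fun x hx y hy h => ?_⟩
      · by_cases h : z ∈ K
        · simp only [if_pos h]; omega
        · simp only [if_neg h]
          have := hg'1 z (Finset.mem_sdiff.mpr ⟨hz, h⟩)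
          omega
      · by_cases h1 : x ∈ K <;> by_cases h2 : y ∈ K <;> simp only [h1, h2, if_true, if_false] at h
        · have hle : ∀ z ∈ K, z ≤ a := fun z hz => by
            rcases (Finset.mem_filter.mp hz).2 with h | h
            · exact h.le
            · exact h.2.trans hi
          by_cases hxa : x = a
          · exact Or.inr (hxa ▸ hle y h2)
          · by_cases hya : y = a
            · exact Or.inl (hya ▸ hle x h1)
            · exact hg2 x (Finset.mem_erase.mpr ⟨hxa, hx⟩) y (Finset.mem_erase.mpr ⟨hya, hy⟩)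
                (((Finset.mem_filter.mp h1).2.resolve_left hxa).1.trans
                  ((Finset.mem_filter.mp h2).2.resolve_left hya).1.symm)
        · have := hg'1 y (Finset.mem_sdiff.mpr ⟨hy, h2⟩)
          omega
        · have := hg'1 x (Finset.mem_sdiff.mpr ⟨hx, h1⟩)
          omega
        · exact hg'2 x (Finset.mem_sdiff.mpr ⟨hx, h1⟩) y (Finset.mem_sdiff.mpr ⟨hy, h2⟩) h
    · push Not at hcase
      have hnot : a ∉ Finset.univ.image t := by
        intro h
        obtain ⟨i, -, hi⟩ := Finset.mem_image.mp h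
        exact hcase i hi.le
      have hlt : k' + 1 ≤ k := by
        have := hk (insert a (Finset.univ.image t)) (by
          intro z hz
          rcases Finset.mem_insert.mp hz with rfl | hz
          · exact haX
          · obtain ⟨i, -, rfl⟩ := Finset.mem_image.mp hz
            exact hX'X.subset (ht1 i)) (by
          intro x hx y hy h
          rcases Finset.mem_insert.mp hx with hx' | hx' <;>
            rcases Finset.mem_insert.mp hy with hy' | hy'
          · exact hx'.trans hy'.symm
          · obtain ⟨i, -, rfl⟩ := Finset.mem_image.mp hy'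
            exact absurd (ha.2 (hX'X.subset (ht1 i)) (hx' ▸ h)) (hcase i)
          · obtain ⟨i, -, rfl⟩ := Finset.mem_image.mp hx'
            exact absurd (hy' ▸ h) (hcase i)
          · obtain ⟨i, -, rfl⟩ := Finset.mem_image.mp hx'
            obtain ⟨j, -, rfl⟩ := Finset.mem_image.mp hy'
            exact htanti i j h)
        rwa [Finset.card_insert_of_notMem hnot, Finset.card_image_of_injective _ htinj,
          Finset.card_univ, Fintype.card_fin] at this
      refine ⟨fun z => if z = a then k' else g z, fun z hz => ?_, fun x hx y hy h => ?_⟩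
      · by_cases h : z = a
        · simp only [if_pos h]; omega
        · simp only [if_neg h]
          have := hg1 z (Finset.mem_erase.mpr ⟨h, hz⟩)
          omega
      · by_cases h1 : x = a <;> by_cases h2 : y = a <;> simp only [h1, h2, if_true, if_false] at h
        · exact Or.inl (h1.trans h2.symm).le
        · have := hg1 y (Finset.mem_erase.mpr ⟨h2, hy⟩)
          omega
        · have := hg1 x (Finset.mem_erase.mpr ⟨h1, hx⟩)
          omega
        · exact hg2 x (Finset.mem_erase.mpr ⟨h1, hx⟩) y (Finset.mem_erase.mpr ⟨h2, hy⟩) h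

lemma exists_chCol (k : ℕ) (hk : ∀ A : Finset α, Anti A → A.card ≤ k) :
    ∃ col : α → Fin (k + 1), ChCol col := by
  classical
  choose g hg1 hg2 using fun X : Finset α => dilworth_finite X k fun A _ => hk A
  obtain ⟨χ, hχ⟩ := Finset.rado_selection (β := fun _ : α => Fin (k + 1))
    fun s a => if h : a ∈ s then ⟨g s a, (hg1 s a h).trans (Nat.lt_succ_self k)⟩ else 0
  refine ⟨χ, fun x y h => ?_⟩
  obtain ⟨t, ht1, ht2⟩ := hχ {x, y}
  have hx : x ∈ t := ht1 (by simp)
  have hy : y ∈ t := ht1 (by simp)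
  rw [ht2 x (by simp), ht2 y (by simp), dif_pos hx, dif_pos hy] at h
  exact hg2 t x hx y hy (congrArg Fin.val h)

/-- Every poset whose antichains have at most `k` elements has a chain `C` and a retraction onto
`C` whose fibres are antichains. -/
theorem exists_retraction (k : ℕ)
    (hk : ∀ A : Finset α, IsAntichain (· ≤ ·) (A : Set α) → A.card ≤ k) :
    ∃ (C : Set α) (f : α → α), IsChain (· ≤ ·) C ∧ (∀ x, f x ∈ C) ∧ (∀ c ∈ C, f c = c) ∧
      ∀ x y, f x = f y → x ≤ y → x = y := by
  obtain ⟨col, hc⟩ := exists_chCol (α := α) k fun A hA => hk A fun x hx y hy hne h =>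
    hne (hA x hx y hy h)
  obtain ⟨W, -, h2, h3⟩ := exists_spine_of_col hc (univ : Set α)
  obtain ⟨f, hf⟩ := h3.exists_fun
  exact ⟨W, f, fun x hx y hy _ => h2 x hx y hy, fun x => hf.1 x trivial, hf.2.1,
    fun x y h hxy => (hf.2.2 x trivial y trivial h).resolve_right fun h' => h'.1 hxy⟩

end Pool.Agent.P.MP_6ec1b7_co
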