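import Pool.Agent.P.MP_6ec1b7_co.States

/-!
The induction on the cardinality.
-/

set_option autoImplicit false

open Set Cardinal

namespace Pool.Agent.P.MP_6ec1b7_co

universe u

variable {α : Type u} [PartialOrder α] {ν : Cardinal.{u}} {ι : Type} [Finite ι] {col : α → ι}

omit [PartialOrder α] in
lemma card_iUnion_nat_le {θ : Cardinal.{u}} (hθ : ℵ₀ ≤ θ) (S : ℕ → Set α) (h : ∀ k, #(S k) ≤ θ) :
    #(⋃ k, S k : Set α) ≤ θ := by
  have h1 := mk_iUnion_le_lift S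
  simp only [lift_uzero, mk_nat, lift_aleph0] at h1
  have h2 : (⨆ k, #(S k)) ≤ θ := ciSup_le' h
  exact h1.trans ((mul_le_mul' hθ h2).trans (mul_eq_self hθ).le)

lemma UpSimple.small_ioi (hν : ℵ₀ ≤ ν) {R : Set α} (h : UpSimple ν R) {y : α} (hy : y ∈ R) :
    #(R \ Ioi y : Set α) < ν :=
  small_of_subset_union hν (h.2 y hy) (small_singleton hν y) fun u hu => by
    by_cases h' : y ≤ u
    · exact Or.inr (h'.eq_or_lt.resolve_right hu.2).symm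
    · exact Or.inl ⟨hu.1, h'⟩

lemma lt_of_card {R : Set α} {θ : Cardinal.{u}} {x c : α} (h1 : #(R \ Ioi x : Set α) < θ)
    (h2 : θ ≤ #(R ∩ Iic c : Set α)) : x < c := by
  by_contra h
  exact absurd h2 (not_le.mpr (small_mono h1 fun u hu => ⟨hu.1, fun h' => h (lt_of_lt_of_le h' hu.2)⟩))

lemma exists_cut (hν : ℵ₀ ≤ ν)
    (hU : ∀ S : ℕ → Set α, (∀ k, #(S k) < ν) → #(⋃ k, S k : Set α) < ν) {R R0 : Set α}
    (hR : UpSimple ν R) (hR0 : R0 ⊆ R) (hbd : ∀ y ∈ R, ∃ y' ∈ R, ∀ u ∈ R0, ¬ y ≤ u → u ≤ y')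
    {y : α} (hy : y ∈ R) :
    ∃ K, Low R K ∧ #K < ν ∧ y ∈ K ∧ ∀ u ∈ R0, u ∉ K → ∀ k ∈ K, k < u := by
  have hstep : ∀ y : R, ∃ y' : R, ∀ u ∈ R0, ¬ y.1 ≤ u → u ≤ y'.1 := by
    rintro ⟨y, hy⟩
    obtain ⟨y', h1, h2⟩ := hbd y hy
    exact ⟨⟨y', h1⟩, h2⟩
  choose g hg using hstep
  refine ⟨⋃ n, R ∩ Iic (g^[n] ⟨y, hy⟩).1, ⟨iUnion_subset fun n => inter_subset_left,
    fun u hu z hz h => ?_⟩, hU _ fun n => small_mono (hR.small_ioi hν (g^[n] ⟨y, hy⟩).2)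
      fun u hu => ⟨hu.1, fun h => absurd (lt_of_lt_of_le h hu.2) (lt_irrefl _)⟩,
    mem_iUnion.mpr ⟨0, hy, le_rfl⟩, fun u hu huK k hk => ?_⟩
  · obtain ⟨n, hn⟩ := mem_iUnion.mp hz
    exact mem_iUnion.mpr ⟨n, hu, le_trans h hn.2⟩
  · obtain ⟨n, hn⟩ := mem_iUnion.mp hk
    refine lt_of_le_of_ne (le_trans hn.2 ?_) fun h => huK (h ▸ hk)
    by_contra h
    refine huK (mem_iUnion.mpr ⟨n + 1, hR0 hu, ?_⟩)
    rw [Function.iterate_succ_apply']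
    exact hg _ u hu h

lemma spine_of_cuts (hSp : ∀ κ < ν, Sp α κ) {S : Set α}
    (h : ∀ y ∈ S, ∃ K : Set α, #K < ν ∧ y ∈ K ∧ ∀ u ∈ S, u ∉ K → ∀ k ∈ K, k < u) :
    ∃ W, Spine S W := by
  refine spine_of_waves fun Y hY ⟨y, hy⟩ => ?_
  obtain ⟨K, h1, h2, h3⟩ := h y (hY hy)
  obtain ⟨W, hW⟩ := hSp _ (small_mono h1 inter_subset_right) (Y ∩ K) rfl
  refine ⟨W, hW.nonempty ⟨y, hy, h2⟩, hW.wave.of_subset inter_subset_left fun x hx c hc hi =>
    ⟨hx, ?_⟩⟩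
  by_contra hn
  exact hi.1 (h3 x (hY hx) hn c (hW.1 hc).2).le

omit [PartialOrder α] in
lemma big_sdiff (hν : ℵ₀ ≤ ν) {S T : Set α} (hS : ν ≤ #S) (hT : #T < ν) : ν ≤ #(S \ T : Set α) :=
  big_of_subset_union hν hS hT fun x hx => by by_cases h : x ∈ T <;> simp [h, hx]

lemma aw_succ (hc : ChCol col) (hSp : ∀ κ < ν, Sp α κ) {θ : Cardinal.{u}}
    (hθ : ν = Order.succ θ) : Aw α ν := by
  intro hν R _ hR b hb
  have hθ0 : ℵ₀ ≤ θ := Order.lt_succ_iff.mp (hθ ▸ hν)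
  have hle : ∀ {κ : Cardinal.{u}}, κ < ν → κ ≤ θ := fun h => Order.lt_succ_iff.mp (hθ ▸ h)
  have hθν : θ < ν := hθ ▸ Order.lt_succ θ
  have hU : ∀ S : ℕ → Set α, (∀ k, #(S k) < ν) → #(⋃ k, S k : Set α) < ν := fun S hS =>
    (card_iUnion_nat_le hθ0 S fun k => hle (hS k)).trans_lt hθν
  have hbd : ∀ y ∈ R, ∃ y' ∈ R, ∀ u ∈ R, ¬ y ≤ u → u ≤ y' := by
    intro y hy
    have h1 : #(⋃ z ∈ R \ Ici y, R \ Ici z : Set α) < ν := by
      have g1 := mk_biUnion_le (fun z => R \ Ici z) (R \ Ici y)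
      have g2 : (⨆ z : (R \ Ici y : Set α), #(R \ Ici z.1 : Set α)) ≤ θ :=
        ciSup_le' fun z => hle (hR.2 z.1 z.2.1)
      exact (g1.trans ((mul_le_mul' (hle (hR.2 y hy)) g2).trans (mul_eq_self hθ0).le)).trans_lt hθν
    obtain ⟨y', h2, h3⟩ := exists_mem_not_mem hν.le hR.1 h1
    refine ⟨y', h2, fun u hu hn => ?_⟩
    by_contra h
    exact h3 (mem_biUnion (show u ∈ R \ Ici y from ⟨hu, hn⟩) ⟨h2, h⟩)
  obtain ⟨K, -, k2, k3, k4⟩ := exists_cut hν.le hU hR subset_rfl hbd hb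
  obtain ⟨W, hW⟩ := spine_of_cuts hSp (S := R \ K) fun y hy => by
    obtain ⟨K', -, g2, g3, g4⟩ := exists_cut hν.le hU hR subset_rfl hbd hy.1
    exact ⟨K', g2, g3, fun u hu => g4 u hu.1⟩
  exact ⟨W, hW.wave.of_subset sdiff_subset fun x hx c hc hi =>
    ⟨hx, fun h => hi.2 (k4 c (hW.1 hc).1 (hW.1 hc).2 x h).le⟩,
    hW.big hν.le hc (big_sdiff hν.le hR.1 k2), fun c hc => k4 c (hW.1 hc).1 (hW.1 hc).2 b k3⟩

lemma aw_uncountable_cof (hc : ChCol col) (hSp : ∀ κ < ν, Sp α κ) (hA : ∀ κ < ν, Aw α κ)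
    (hlim : ∀ θ < ν, Order.succ θ < ν)
    (hU : ∀ S : ℕ → Set α, (∀ k, #(S k) < ν) → #(⋃ k, S k : Set α) < ν) : Aw α ν := by
  intro hν R _ hR b hb
  let Cof : ι → Prop := fun l => ∀ y ∈ R, ∃ d ∈ R, col d = l ∧ y ≤ d
  let Bdd : ι → Prop := fun l => ∃ z ∈ R, ∀ d ∈ R, col d = l → d ≤ z
  set Y := {y | y ∈ R ∧ ¬ Cof (col y) ∧ ¬ Bdd (col y)} with hY
  have hc0 : ∃ c ∈ R, b ≤ c ∧ ∀ y ∈ Y, ¬ c ≤ y := by
    have : ∀ l, ∃ z ∈ R, ¬ Cof l → ∀ d ∈ R, col d = l → ¬ z ≤ d := by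
      intro l
      by_cases h : Cof l
      · exact ⟨b, hb, fun h' => absurd h h'⟩
      · simp only [Cof, not_forall, not_exists, not_and] at h
        obtain ⟨z, hz, h⟩ := h
        exact ⟨z, hz, fun _ => h⟩
    choose z hz1 hz2 using this
    obtain ⟨c1, h1, h2⟩ := hR.bound hν.le z hz1
    obtain ⟨c, h3, h4, h5⟩ := hR.directed hν.le hb h1
    exact ⟨c, h3, h4, fun y hy h => hz2 _ hy.2.1 y hy.1 rfl ((h2 _).trans (h5.trans h))⟩
  obtain ⟨c, hcR, hbc, hcY⟩ := hc0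
  have hbd : ∀ y ∈ R, ∃ y' ∈ R, ∀ u ∈ R \ Y, ¬ y ≤ u → u ≤ y' := by
    intro y hy
    have : ∀ l, ∃ z ∈ R, (Cof l ∨ Bdd l) → ∀ d ∈ R, col d = l → ¬ y ≤ d → d ≤ z := by
      intro l
      by_cases h : Cof l
      · obtain ⟨d, hd, h1, h2⟩ := h y hy
        exact ⟨d, hd, fun _ u _ hu hn =>
          (hc u d (hu.trans h1.symm)).resolve_right fun h' => hn (h2.trans h')⟩
      · by_cases h' : Bdd l
        · obtain ⟨z, hz, h1⟩ := h'
          exact ⟨z, hz, fun _ d hd hl _ => h1 d hd hl⟩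
        · exact ⟨b, hb, fun h'' => absurd (h''.resolve_left h) h'⟩
    choose z hz1 hz2 using this
    obtain ⟨y', h1, h2⟩ := hR.bound hν.le z hz1
    refine ⟨y', h1, fun u hu hn => (hz2 (col u) ?_ u hu.1 rfl hn).trans (h2 _)⟩
    by_contra h
    exact hu.2 ⟨hu.1, fun h' => h (Or.inl h'), fun h' => h (Or.inr h')⟩
  set θ := max #(R \ Ioi c : Set α) ℵ₀ with hθ
  have hθν : θ < ν := max_lt (hR.small_ioi hν.le hcR) hν
  have h1 : #(R \ Ioi c : Set α) < Order.succ θ := (le_max_left _ _).trans_lt (Order.lt_succ θ)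
  have h2 : Order.succ θ < Order.succ (Order.succ θ) := Order.lt_succ _
  have h3 : ℵ₀ < Order.succ (Order.succ θ) :=
    ((le_max_right _ _).trans_lt (Order.lt_succ θ)).trans h2
  obtain ⟨y0, hy0, hy0'⟩ := hR.exists_iic hν hc (hlim _ (hlim _ hθν))
  obtain ⟨K, k1, k2, k3, k4⟩ := exists_cut hν.le hU hR sdiff_subset hbd hy0
  obtain ⟨𝒦, -, h𝒦⟩ := exists_states hc hSp hA R h2 h3
  obtain ⟨W, w1, w2, w3, -⟩ := h𝒦 K k1 (big_mono hy0' fun u hu => k1.2 u hu.1 y0 k3 hu.2) k2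
  have hcW : ∀ w ∈ W, c < w := fun w hw => lt_of_card h1 (w3 w hw)
  obtain ⟨V, hV⟩ := spine_of_cuts hSp (S := (R \ Y) \ K) fun y hy => by
    obtain ⟨K', -, g2, g3, g4⟩ := exists_cut hν.le hU hR sdiff_subset hbd hy.1.1
    exact ⟨K', g2, g3, fun u hu => g4 u hu.1⟩
  have hYsm : #Y < Order.succ (Order.succ θ) :=
    small_mono (h1.trans h2) fun y hy => ⟨hy.1, fun h => hcY y hy (le_of_lt h)⟩
  obtain ⟨f, hf⟩ := w1.2.2.exists_fun
  have hcol : Col (dom K W ∪ Y \ K) W := hf.absorb w1.subset_dom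
    ((mk_le_mk_of_subset sdiff_subset).trans hYsm.le) fun y hy =>
      free_of_small h3.le w2 (h1.trans h2) fun u hu hn => ⟨k1.1 hu.1, fun h => by
        rcases not_inc.mp hn with h' | h'
        · exact hcY y hy.1 ((le_of_lt h).trans h')
        · exact hy.2 (k1.2 y hy.1.1 u hu.1 h')⟩
  have hKV : ∀ k ∈ K, ∀ v ∈ V, k < v := fun k hk v hv => k4 v (hV.1 hv).1 (hV.1 hv).2 k hk
  obtain ⟨w0, hw0⟩ := nonempty_of_big h3.le w2
  refine ⟨W ∪ V, ⟨union_subset (w1.1.trans k1.1) fun v hv => (hV.1 hv).1.1, ?_,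
    (hcol.union hV.2.2 fun w hw hv => (hV.1 hv).2 (w1.1 hw)).mono fun x hx => ?_⟩,
    big_mono (hV.big hν.le hc (big_sdiff hν.le (big_sdiff hν.le hR.1
      (hYsm.trans (hlim _ (hlim _ hθν)))) k2)) subset_union_right, ?_⟩
  · rintro x (hx | hx) y (hy | hy)
    · exact w1.2.1 x hx y hy
    · exact Or.inl (hKV x (w1.1 hx) y hy).le
    · exact Or.inr (hKV y (w1.1 hy) x hx).le
    · exact hV.2.1 x hx y hy
  · by_cases hxK : x ∈ K
    · refine Or.inl (Or.inl ⟨hxK, ?_⟩)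
      rcases hx.2 with (h | h) | ⟨w, h | h, hi⟩
      · exact Or.inl h
      · exact absurd hxK (hV.1 h).2
      · exact Or.inr ⟨w, h, hi⟩
      · exact absurd (hKV x hxK w h).le hi.2
    · by_cases hxY : x ∈ Y
      · exact Or.inl (Or.inr ⟨hxY, hxK⟩)
      · exact Or.inr ⟨⟨hx.1, hxY⟩, hxK⟩
  · rintro w (hw | hw)
    · exact hbc.trans_lt (hcW w hw)
    · exact (hbc.trans_lt (hcW w0 hw0)).trans (hKV w0 (w1.1 hw0) w hw)

lemma aw_countable_cof (hc : ChCol col) (hSp : ∀ κ < ν, Sp α κ) (hA : ∀ κ < ν, Aw α κ)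
    (hlim : ∀ θ < ν, Order.succ θ < ν) (s : ℕ → Cardinal.{u}) (hs1 : ∀ k, s k < ν)
    (hs2 : ∀ θ < ν, ∃ k, θ < s k) : Aw α ν := by
  intro hν R _ hR b hb
  have hstep : ∀ (n : ℕ) (θ : {θ : Cardinal.{u} // θ < ν}), ∃ θ' : {θ : Cardinal.{u} // θ < ν},
      θ.1 ≤ θ'.1 ∧ s n ≤ θ'.1 ∧ ∃ y ∈ R, Order.succ θ.1 ≤ #(R ∩ Iic y : Set α) ∧
        #(R \ Ioi y : Set α) < θ'.1 := by
    rintro n ⟨θ, hθ⟩
    obtain ⟨y, hy, hy'⟩ := hR.exists_iic hν hc (hlim _ hθ)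
    refine ⟨⟨max (max θ (s n)) (Order.succ #(R \ Ioi y : Set α)),
      max_lt (max_lt hθ (hs1 n)) (hlim _ (hR.small_ioi hν.le hy))⟩,
      (le_max_left _ _).trans (le_max_left _ _), (le_max_right _ _).trans (le_max_left _ _),
      y, hy, hy', (Order.lt_succ _).trans_le (le_max_right _ _)⟩
  choose φ hφ1 hφ2 hφ3 using hstep
  let m' : ℕ → {θ : Cardinal.{u} // θ < ν} := fun n => Nat.rec
    ⟨max ℵ₀ (Order.succ #(R \ Ioi b : Set α)), max_lt hν (hlim _ (hR.small_ioi hν.le hb))⟩ φ n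
  let m : ℕ → Cardinal.{u} := fun n => (m' n).1
  have hmν : ∀ n, m n < ν := fun n => (m' n).2
  have hmono : Monotone m := monotone_nat_of_le_succ fun n => hφ1 n (m' n)
  have hm0 : ∀ n, ℵ₀ < Order.succ (m n) := fun n =>
    ((le_max_left _ _).trans (hmono (Nat.zero_le n))).trans_lt (Order.lt_succ _)
  have hmb : ∀ n, #(R \ Ioi b : Set α) < m n := fun n =>
    (Order.lt_succ _).trans_le ((le_max_right _ _).trans (hmono (Nat.zero_le n)))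
  have hcof : ∀ θ < ν, ∃ n, θ < m n := fun θ hθ => by
    obtain ⟨k, hk⟩ := hs2 θ hθ
    exact ⟨k + 1, hk.trans_le (hφ2 k (m' k))⟩
  choose 𝒦 h𝒦1 h𝒦2 using fun n => exists_states hc hSp hA R (Order.lt_succ (m n)) (hm0 n)
  let T : ℕ → Set (Set α) := fun n => {K | K ∈ 𝒦 n ∧ Low R K ∧ #K < ν ∧
    ∀ x ∈ R, #(R \ Ioi x : Set α) < m n → x ∈ K}
  have hgen : ∀ n X, Low R X → Order.succ (m n) ≤ #X → #X < ν → ∃ K ∈ T n, ∃ W, Wave X W ∧
      Order.succ (m n) ≤ #W ∧ (∀ c ∈ W, m n ≤ #(R ∩ Iic c : Set α)) ∧ K = LB X W := by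
    intro n X h1 h2 h3
    obtain ⟨W, w1, w2, w3, w4, -⟩ := h𝒦2 n X h1 h2 h3
    refine ⟨_, ⟨w4, h1.trans (low_LB X W), small_mono h3 fun x hx => hx.1, fun x hx h => ?_⟩,
      W, w1, w2, w3, rfl⟩
    obtain ⟨c, hc⟩ := nonempty_of_big (hm0 n).le w2
    exact ⟨h1.2 x hx c (w1.1 hc) (lt_of_card h (w3 c hc)).le, fun c hc => lt_of_card h (w3 c hc)⟩
  obtain ⟨K, hK⟩ := konig T (fun n => (h𝒦1 n).subset fun K hK => hK.1)
    (fun n => by
      obtain ⟨y, hy, h1, -⟩ := hφ3 n (m' n)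
      obtain ⟨K, hK, -⟩ := hgen n (R ∩ Iic y)
        ⟨inter_subset_left, fun u hu z hz h => ⟨hu, le_trans h hz.2⟩⟩ h1
        (small_mono (hR.small_ioi hν.le hy) fun u hu =>
          ⟨hu.1, fun h => absurd (lt_of_lt_of_le h hu.2) (lt_irrefl _)⟩)
      exact ⟨K, hK⟩) _
    (fun n K' hK' => by
      obtain ⟨y, hy, h1, h2⟩ := hφ3 n (m' n)
      exact hgen n K' hK'.2.1 (big_mono h1 fun u hu =>
        hK'.2.1.2 u hu.1 y (hK'.2.2.2 y hy h2) hu.2) hK'.2.2.1)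
  choose W w1 w2 w3 w4 using fun n => (hK n).2
  have hKmono : Monotone K := monotone_nat_of_le_succ fun n x hx => by
    rw [w4 n] at hx; exact hx.1
  have hKlt : ∀ n, ∀ x ∈ K n, ∀ c ∈ W n, x < c := fun n x hx => by
    rw [w4 n] at hx; exact hx.2
  have hlt : ∀ n k, n < k → ∀ x ∈ W n, ∀ c ∈ W k, x < c := fun n k h x hx =>
    hKlt k x (hKmono h ((w1 n).1 hx))
  refine ⟨⋃ n, W n, ⟨iUnion_subset fun n => (w1 n).1.trans (hK (n + 1)).1.2.1.1, ?_,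
    (Col.iUnion (fun n => (w1 n).2.2) fun i j c hi hj => ?_).mono fun x hx => ?_⟩, ?_, ?_⟩
  · intro x hx y hy
    obtain ⟨n, hn⟩ := mem_iUnion.mp hx
    obtain ⟨k, hk⟩ := mem_iUnion.mp hy
    rcases lt_trichotomy n k with h | rfl | h
    · exact Or.inl (hlt n k h x hn y hk).le
    · exact (w1 n).2.1 x hn y hk
    · exact Or.inr (hlt k n h y hk x hn).le
  · rcases lt_trichotomy i j with h | h | h
    · exact absurd (hlt i j h c hi c hj) (lt_irrefl _)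
    · exact h
    · exact absurd (hlt j i h c hj c hi) (lt_irrefl _)
  · rcases hx.2 with h | ⟨c, hc', hi⟩
    · obtain ⟨n, hn⟩ := mem_iUnion.mp h
      exact mem_iUnion.mpr ⟨n, (w1 n).subset_dom hn⟩
    · obtain ⟨n, hn⟩ := mem_iUnion.mp hc'
      by_contra hcon
      have hnot : ∀ j, x ∉ K (n + 1 + j) := by
        intro j
        induction j with
        | zero => exact fun h => hcon (mem_iUnion.mpr ⟨n, h, Or.inr ⟨c, hn, hi⟩⟩)
        | succ j ih =>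
          intro h
          apply ih
          rw [w4]
          refine ⟨h, fun c' hc' => ?_⟩
          have hn1 : x ∉ W (n + 1 + j) := fun h' => hcon (mem_iUnion.mpr ⟨_, h, Or.inl h'⟩)
          rcases not_inc.mp fun h' => hcon (mem_iUnion.mpr ⟨_, h, Or.inr ⟨c', hc', h'⟩⟩)
            with h' | h'
          · exact absurd ((hlt n _ (by omega) c hn c' hc').le.trans h') hi.1
          · exact lt_of_le_of_ne h' fun h'' => hn1 (h'' ▸ hc')
      obtain ⟨k, hk⟩ := hcof _ (hR.small_ioi hν.le hx.1)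
      exact hnot k (hKmono (by omega) ((hK k).1.2.2.2 x hx.1 hk))
  · by_contra h
    obtain ⟨k, hk⟩ := hcof _ (not_le.mp h)
    exact absurd (big_mono (w2 k) (subset_iUnion W k)) (not_le.mpr (hk.trans (Order.lt_succ _)))
  · intro c hc'
    obtain ⟨n, hn⟩ := mem_iUnion.mp hc'
    exact lt_of_card (hmb n) (w3 n c hn)

lemma aw_step (hc : ChCol col) (hSp : ∀ κ < ν, Sp α κ) (hA : ∀ κ < ν, Aw α κ) : Aw α ν := by
  by_cases hlim : ∀ θ < ν, Order.succ θ < ν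
  · by_cases hU : ∀ S : ℕ → Set α, (∀ k, #(S k) < ν) → #(⋃ k, S k : Set α) < ν
    · exact aw_uncountable_cof hc hSp hA hlim hU
    · push Not at hU
      obtain ⟨S, h1, h2⟩ := hU
      intro hν
      refine aw_countable_cof hc hSp hA hlim _ h1 (fun θ hθ => ?_) hν
      by_contra hcon
      push Not at hcon
      exact absurd (h2.trans (card_iUnion_nat_le (le_max_right θ ℵ₀) S fun k =>
        (hcon k).trans (le_max_left _ _))) (not_le.mpr (max_lt hθ hν))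
  · push Not at hlim
    obtain ⟨θ, h1, h2⟩ := hlim
    exact aw_succ hc hSp (le_antisymm h2 (Order.succ_le_of_lt h1))

lemma Thin.dual {K : Set α} (h : Thin ν K) : Thin (α := αᵒᵈ) ν K := fun y hy =>
  small_mono (h y hy) fun _ hu => ⟨hu.1, hu.2.2, hu.2.1⟩

lemma wave_of_up (hν : ℵ₀ < ν) (hA : Aw α ν) {K : Set α} (hK : #K ≤ ν) (hthin : Thin ν K) {c : α}
    (hcK : c ∈ K) (hicc : ∀ y ∈ K, #(K ∩ Icc c y : Set α) < ν)
    (hbig : ν ≤ #{y | y ∈ K ∧ ¬ y < c}) : ∃ W, W.Nonempty ∧ Wave K W := by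
  obtain ⟨W, w1, w2, w3⟩ := hA hν {y | y ∈ K ∧ ¬ y < c}
    (le_antisymm ((mk_le_mk_of_subset fun y hy => hy.1).trans hK) hbig)
    ⟨hbig, fun y hy => small_of_subset_union hν.le (small_union hν.le (hthin y hy.1) (hthin c hcK))
      (hicc y hy.1) fun u hu => by
        by_cases h1 : u ≤ y
        · by_cases h2 : c ≤ u
          · exact Or.inr ⟨hu.1.1, h2, h1⟩
          · exact Or.inl (Or.inr ⟨hu.1.1, fun h => hu.1.2 (lt_of_le_not_ge h h2), h2⟩)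
        · exact Or.inl (Or.inl ⟨hu.1.1, h1, hu.2⟩)⟩ c ⟨hcK, lt_irrefl c⟩
  exact ⟨W, nonempty_of_big hν.le w2, w1.of_subset (fun y hy => hy.1) fun x hx w hw hi =>
    ⟨hx, fun h => hi.2 (h.trans (w3 w hw)).le⟩⟩

lemma sp_step (hc : ChCol col) (hSp : ∀ κ < ν, Sp α κ) (hA : Aw α ν) (hA' : Aw αᵒᵈ ν) :
    Sp α ν := by
  intro X hX
  rcases lt_or_ge ν ℵ₀ with hν | hν
  · exact spine_of_finite (lt_aleph0_iff_set_finite.mp (hX ▸ hν))
  obtain ⟨B, hB⟩ := exists_full_core hν hc X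
  suffices h : ∃ W, Spine B W by
    obtain ⟨W, hW⟩ := h
    exact ⟨W, spine_of_full hν hc hX.le hB hW⟩
  rcases hν.eq_or_lt with rfl | hν'
  · exact spine_of_locally_finite hB.2.1
  refine spine_of_waves fun Y hY ⟨c, hcY⟩ => ?_
  have hthin : Thin ν Y := fun y hy =>
    small_mono (hB.2.1 y (hY hy)) (inter_subset_inter_left _ hY)
  set K := {y | y ∈ Y ∧ #(Y ∩ Icc c y : Set α) < ν ∧ #(Y ∩ Icc y c : Set α) < ν} with hK
  have hKY : K ⊆ Y := fun y hy => hy.1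
  have hcc : #(Y ∩ Icc c c : Set α) < ν :=
    small_mono (small_singleton hν c) fun u hu => le_antisymm hu.2.2 hu.2.1
  have hcK : c ∈ K := ⟨hcY, hcc, hcc⟩
  suffices h : ∃ W, W.Nonempty ∧ Wave K W by
    obtain ⟨W, h1, h2⟩ := h
    refine ⟨W, h1, h2.of_subset hKY fun x hx w hw hi => ⟨hx, ?_, ?_⟩⟩
    · refine small_of_subset_union hν (h2.1 hw).2.1 (hthin w (h2.1 hw).1) fun u hu => ?_
      by_cases h : u ≤ w
      · exact Or.inl ⟨hu.1, hu.2.1, h⟩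
      · exact Or.inr ⟨hu.1, h, fun h' => hi.1 (h'.trans hu.2.2)⟩
    · refine small_of_subset_union hν (h2.1 hw).2.2 (hthin w (h2.1 hw).1) fun u hu => ?_
      by_cases h : w ≤ u
      · exact Or.inl ⟨hu.1, h, hu.2.2⟩
      · exact Or.inr ⟨hu.1, fun h' => hi.2 (hu.2.1.trans h'), h⟩
  have hKν : #K ≤ ν := (mk_le_mk_of_subset (hKY.trans (hY.trans hB.1))).trans hX.le
  have hKthin : Thin ν K := fun y hy => small_mono (hthin y hy.1) (inter_subset_inter_left _ hKY)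
  rcases hKν.eq_or_lt with h | h
  · by_cases h1 : ν ≤ #{y | y ∈ K ∧ ¬ y < c}
    · exact wave_of_up hν' hA hKν hKthin hcK
        (fun y hy => small_mono hy.2.1 (inter_subset_inter_left _ hKY)) h1
    · have h2 : ν ≤ #{y | y ∈ K ∧ ¬ c < y} :=
        big_of_subset_union hν h.ge (not_le.mp h1) fun y hy => by
          by_cases h' : c < y
          · exact Or.inr ⟨hy, fun h'' => lt_asymm h' h''⟩
          · exact Or.inl ⟨hy, h'⟩
      obtain ⟨W, w1, w2⟩ := wave_of_up (α := αᵒᵈ) hν' hA' (K := K) hKν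
        hKthin.dual hcK
        (fun y hy => small_mono hy.2.2 fun u hu => ⟨hKY hu.1, hu.2.2, hu.2.1⟩) h2
      exact ⟨W, w1, w2.undual⟩
  · obtain ⟨W, hW⟩ := hSp _ h K rfl
    exact ⟨W, hW.nonempty ⟨c, hcK⟩, hW.wave⟩

theorem exists_spine_of_col (hc : ChCol col) (X : Set α) : ∃ W, Spine X W := by
  have key : ∀ κ : Cardinal.{u}, (Sp α κ ∧ Aw α κ) ∧ (Sp αᵒᵈ κ ∧ Aw αᵒᵈ κ) := by
    intro κ
    induction κ using WellFoundedLT.induction with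
    | _ κ ih =>
      have hA : Aw α κ := aw_step hc (fun κ' h => (ih κ' h).1.1) fun κ' h => (ih κ' h).1.2
      have hA' : Aw αᵒᵈ κ := aw_step hc.dual (fun κ' h => (ih κ' h).2.1) fun κ' h => (ih κ' h).2.2
      exact ⟨⟨sp_step hc (fun κ' h => (ih κ' h).1.1) hA hA', hA⟩,
        sp_step hc.dual (fun κ' h => (ih κ' h).2.1) hA' hA, hA'⟩
  exact (key _).1.1 X rfl

end Pool.Agent.P.MP_6ec1b7_co
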