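import Pool.Agent.P.MP_6ec1b7_co.Wave

/-!
Waves whose set of lower bounds belongs to a fixed finite family.
-/

set_option autoImplicit false

open Set Cardinal

namespace Pool.Agent.P.MP_6ec1b7_co

universe u

variable {α : Type u} [PartialOrder α] {ν : Cardinal.{u}} {ι : Type} [Finite ι] {col : α → ι}

/-- Every subset of cardinality `κ` has a spine. -/
def Sp (α : Type u) [PartialOrder α] (κ : Cardinal.{u}) : Prop :=
  ∀ X : Set α, #X = κ → ∃ W, Spine X W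

/-- Every simple subset of cardinality `κ` has big waves above any given element. -/
def Aw (α : Type u) [PartialOrder α] (κ : Cardinal.{u}) : Prop :=
  ℵ₀ < κ → ∀ R : Set α, #R = κ → UpSimple κ R → ∀ b ∈ R,
    ∃ W, Wave R W ∧ κ ≤ #W ∧ ∀ c ∈ W, b < c

lemma exists_bottom_wave (hν : ℵ₀ ≤ ν) (hc : ChCol col) (hSp : ∀ κ ≤ ν, Sp α κ) {X : Set α}
    (hX : #X = ν) (hsm : #{y | y ∈ X ∧ #(X ∩ Iic y : Set α) < ν} < ν) :
    ∃ W, Wave X W ∧ W.Nonempty ∧ (∀ c ∈ W, ν ≤ #(W ∩ Iic c : Set α)) ∧ #(LB X W) < ν := by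
  obtain ⟨B, hB1, hB2, hB3⟩ := exists_full_core hν hc X
  set B0 := {y | y ∈ B ∧ #(B ∩ Iic y : Set α) < ν} with hB0
  have hB0sm : #B0 < ν := by
    refine small_mono hsm fun y hy => ⟨hB1 hy.1, small_mono hy.2 fun x hx => ⟨?_, hx.2⟩⟩
    by_contra hxB
    refine absurd (hB3 x hx.1 hxB) (not_le.mpr (small_of_subset_union hν hy.2 (hB2 y hy.1)
      fun u hu => ?_))
    by_cases h : u ≤ y
    · exact Or.inl ⟨hu.1, h⟩
    · exact Or.inr ⟨hu.1, h, fun h' => hu.2.2 (le_trans hx.2 h')⟩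
  have hlt : ∀ y ∈ B0, ∀ z ∈ B \ B0, y < z := by
    intro y hy z hz
    have h1 : ¬ z ≤ y := fun h => hz.2 ⟨hz.1, small_mono hy.2 fun u hu => ⟨hu.1, le_trans hu.2 h⟩⟩
    refine lt_of_le_not_ge ?_ h1
    by_contra h2
    refine hz.2 ⟨hz.1, small_of_subset_union hν hy.2 (hB2 y hy.1) fun u hu => ?_⟩
    by_cases h : u ≤ y
    · exact Or.inl ⟨hu.1, h⟩
    · exact Or.inr ⟨hu.1, h, fun h' => h2 (le_trans h' hu.2)⟩
  have hBbig : ν ≤ #B := by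
    by_cases h : X ⊆ B
    · exact big_mono hX.ge h
    · obtain ⟨x, hx, hxB⟩ := not_subset.mp h
      exact big_mono (hB3 x hx hxB) inter_subset_left
  have hdiff : ∀ {S : Set α}, S ⊆ B → ν ≤ #S → ν ≤ #(S \ B0 : Set α) := fun {S} _ hS =>
    big_of_subset_union hν hS hB0sm fun x hx => by by_cases h : x ∈ B0 <;> simp [h, hx]
  obtain ⟨W, hW⟩ := hSp _ ((mk_le_mk_of_subset ((sdiff_subset : B \ B0 ⊆ B).trans hB1)).trans hX.le)
    (B \ B0) rfl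
  obtain ⟨f, hf⟩ := hW.2.2.exists_fun
  have hthin : Thin ν (B \ B0) := fun y hy =>
    small_mono (hB2 y hy.1) (inter_subset_inter_left _ sdiff_subset)
  have hfree : ∀ x ∈ X \ B, ν ≤ #(Free (B \ B0) W f x) := fun x hx =>
    free_of_thin hν hc hthin hf (big_mono (hdiff inter_subset_left (hB3 x hx.1 hx.2))
      fun u hu => ⟨⟨hu.1.1, hu.2⟩, hu.1.2⟩)
  refine ⟨W, ⟨hW.1.trans (sdiff_subset.trans hB1), hW.2.1, (hf.absorb hW.1 (O := X \ B)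
    ((mk_le_mk_of_subset sdiff_subset).trans hX.le) hfree).mono fun x hx => ?_⟩,
    hW.nonempty (nonempty_of_big hν (hdiff subset_rfl hBbig)), fun c hcW => ?_,
    small_mono hB0sm fun x hx => ?_⟩
  · by_cases h : x ∈ B
    · refine Or.inl ⟨h, fun h0 => ?_⟩
      rcases hx.2 with h' | ⟨c, hc', hi⟩
      · exact (hW.1 h').2 h0
      · exact hi.2 (hlt x h0 c (hW.1 hc')).le
    · exact Or.inr ⟨hx.1, h⟩
  · have h1 : ν ≤ #(B ∩ Iic c : Set α) := not_lt.mp fun h => (hW.1 hcW).2 ⟨(hW.1 hcW).1, h⟩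
    refine big_mono (hf.big_image hν hc (T := (B ∩ Iic c) \ B0) (fun u hu => ⟨hu.1.1, hu.2⟩)
      (hdiff inter_subset_left h1)) ?_
    rintro _ ⟨u, hu, rfl⟩
    have hu' : u ∈ B \ B0 := ⟨hu.1.1, hu.2⟩
    refine ⟨hf.1 u hu', ?_⟩
    rcases hf.self_or_inc hW.1 hu' with h | h
    · rw [h]; exact hu.1.2
    · exact (hW.2.1 _ (hf.1 u hu') c hcW).resolve_right fun h' => h.2 (le_trans hu.1.2 h')
  · by_contra h0
    by_cases h : x ∈ B
    · have hx' : x ∈ B \ B0 := ⟨h, h0⟩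
      have := hx.2 _ (hf.1 x hx')
      rcases hf.self_or_inc hW.1 hx' with h' | h'
      · exact this.ne h'.symm
      · exact h'.2 this.le
    · obtain ⟨c, hc1, hc2⟩ := nonempty_of_big hν (hfree x ⟨hx.1, h⟩)
      exact (hc2 c (hW.1 hc1) (hf.2.1 c hc1)).2 (hx.2 c hc1).le

lemma exists_state_dual (hν : ℵ₀ ≤ ν) (hc : ChCol col) {Q W : Set α} (hne : W.Nonempty)
    (hWQ : W ⊆ Q) (hW : Ch W) (hbig : ∀ c ∈ W, ν ≤ #(W ∩ Iic c : Set α)) (hsm : #(LB Q W) < ν) :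
    ∃ l, LB Q W = LB Q (Hd (α := αᵒᵈ) ν col l Q) := by
  obtain ⟨l, hl, -⟩ := exists_state (α := αᵒᵈ) hν hc.dual (X := Q) (Z := Q) (B := W) subset_rfl
    hne hWQ ⟨fun y hy y' hy' => by
      rcases hW y hy y' hy' with h | h
      · exact ⟨y, hy, le_rfl, h⟩
      · exact ⟨y', hy', h, le_rfl⟩, hbig⟩ (small_mono hsm inter_subset_right)
  exact ⟨l, hl⟩

lemma LB_eq {Q X W : Set α} (hX : Low Q X) (hne : W.Nonempty) (hW : W ⊆ X) : LB X W = LB Q W := by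
  obtain ⟨c, hc⟩ := hne
  exact Subset.antisymm (fun x hx => ⟨hX.1 hx.1, hx.2⟩)
    fun x hx => ⟨hX.2 x hx.1 c (hW hc) (hx.2 c hc).le, hx.2⟩

lemma exists_states (hc : ChCol col) (hSp : ∀ κ < ν, Sp α κ) (hA : ∀ κ < ν, Aw α κ) (Q : Set α)
    {μ' μ : Cardinal.{u}} (hμ' : μ' < μ) (hμ : ℵ₀ < μ) :
    ∃ 𝒦 : Set (Set α), 𝒦.Finite ∧ ∀ X, Low Q X → μ ≤ #X → #X < ν →
      ∃ W, Wave X W ∧ μ ≤ #W ∧ (∀ c ∈ W, μ' ≤ #(Q ∩ Iic c : Set α)) ∧ LB X W ∈ 𝒦 ∧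
        #(LB X W) < μ := by
  let J : ι → Set α := fun l => LC Q {d | d ∈ Q ∧ col d = l ∧ #(Q ∩ Iic d : Set α) < μ}
  let Pl : ι → Set α → Prop := fun l W =>
    Wave (J l) W ∧ μ ≤ #W ∧ ∀ c ∈ W, μ' ≤ #(Q ∩ Iic c : Set α)
  refine ⟨(range fun l => LB Q (Classical.epsilon (Pl l))) ∪
    range fun l => LB Q (Hd (α := αᵒᵈ) μ col l Q), (finite_range _).union (finite_range _), ?_⟩
  intro X
  induction hκ : #X using WellFoundedLT.induction generalizing X with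
  | _ κ ih =>
  intro hX h1 h2
  have hκ0 : ℵ₀ < κ := hμ.trans_le h1
  have hIic : ∀ y ∈ X, Q ∩ Iic y ⊆ X ∩ Iic y := fun y hy u hu => ⟨hX.2 u hu.1 y hy hu.2, hu.2⟩
  have hcomp : ∀ W, Wave X W → μ ≤ #W → (∀ c ∈ W, μ' ≤ #(Q ∩ Iic c : Set α)) → μ ≤ #(LB X W) →
      #(LB X W) < κ → ∃ W, Wave X W ∧ μ ≤ #W ∧ (∀ c ∈ W, μ' ≤ #(Q ∩ Iic c : Set α)) ∧
        LB X W ∈ (range fun l => LB Q (Classical.epsilon (Pl l))) ∪
          (range fun l => LB Q (Hd (α := αᵒᵈ) μ col l Q)) ∧ #(LB X W) < μ := by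
    intro W g1 g2 g3 g4 g5
    obtain ⟨V, v1, v2, v3, v4, v5⟩ := ih _ g5 (LB X W) rfl (hX.trans (low_LB X W)) g4 (g5.trans h2)
    have heq : LB X (W ∪ V) = LB (LB X W) V := Subset.antisymm
      (fun x hx => ⟨⟨hx.1, fun c hc => hx.2 c (Or.inl hc)⟩, fun c hc => hx.2 c (Or.inr hc)⟩)
      fun x hx => ⟨hx.1.1, fun c hc => hc.elim (hx.1.2 c) (hx.2 c)⟩
    exact ⟨W ∪ V, g1.comp v1, big_mono g2 subset_union_left, fun c hc => hc.elim (g3 c) (v3 c),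
      heq ▸ v4, heq ▸ v5⟩
  by_cases hcase : κ ≤ #{y | y ∈ X ∧ #(X ∩ Iic y : Set α) < κ}
  · obtain ⟨R, hR1, hR2⟩ := exists_simple hκ0.le hc hcase fun E hE hend => by
      obtain ⟨d, hd⟩ := hend.1
      exact absurd (hend.2.2 d hd) (not_le.mpr (small_mono (hE hd).2 fun u hu =>
        ⟨(hE hu.1).1, hu.2⟩))
    have hRX : Low X R := Low.trans (Y := {y | y ∈ X ∧ #(X ∩ Iic y : Set α) < κ})
      ⟨fun y hy => hy.1, fun u hu z hz h =>
      ⟨hu, small_mono hz.2 fun v hv => ⟨hv.1, le_trans hv.2 h⟩⟩⟩ hR1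
    have hRκ : #R = κ := le_antisymm (hκ ▸ mk_le_mk_of_subset hRX.1) hR2.1
    have hLB : ∀ W : Set α, W ⊆ R → κ ≤ #W → #(LB X W) < κ := fun W hW hbig => by
      obtain ⟨c, hc⟩ := nonempty_of_big hκ0.le hbig
      exact small_mono (hR1.1 (hW hc)).2 fun x hx => ⟨hx.1, (hx.2 c hc).le⟩
    rcases h1.eq_or_lt with h1' | h1'
    · subst h1'
      obtain ⟨l, hl⟩ := exists_big_col hκ0.le col hR2.1
      have hRJ : R = J l := by
        refine Subset.antisymm (fun y hy => ?_) ?_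
        · obtain ⟨d, hd, hd'⟩ := exists_mem_not_mem hκ0.le hl (hR2.2 y hy)
          refine ⟨hX.1 (hRX.1 hy), d, ⟨hX.1 (hRX.1 hd.1), hd.2,
            small_mono (hR1.1 hd.1).2 (hIic d (hRX.1 hd.1))⟩, ?_⟩
          by_contra h
          exact hd' ⟨hd.1, h⟩
        · rintro x ⟨hx, h, ⟨hh1, hh2, hh3⟩, hxh⟩
          obtain ⟨d, hd, hd'⟩ := exists_mem_not_mem hκ0.le hl hh3
          have : h ≤ d := (hc h d (by rw [hh2, hd.2])).resolve_right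
            fun h' => hd' ⟨hX.1 (hRX.1 hd.1), h'⟩
          exact (hX.trans hRX).2 x hx d hd.1 (hxh.trans this)
      have hex : ∃ W, Pl l W := by
        obtain ⟨b, hb, hb'⟩ := hR2.exists_iic hκ0 hc hμ'
        obtain ⟨W, w1, w2, w3⟩ := hA _ h2 hκ0 R hRκ hR2 b hb
        exact ⟨W, hRJ ▸ w1, w2, fun c hc => big_mono hb' fun u hu =>
          ⟨hX.1 (hRX.1 hu.1), le_trans hu.2 (w3 c hc).le⟩⟩
      obtain ⟨w1, w2, w3⟩ := Classical.epsilon_spec hex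
      rw [← hRJ] at w1
      exact ⟨_, w1.of_simple hκ0.le hκ.le hRX hR2 w2, w2, w3,
        Or.inl ⟨l, (LB_eq hX (nonempty_of_big hκ0.le w2) (w1.1.trans hRX.1)).symm⟩, hLB _ w1.1 w2⟩
    · obtain ⟨b, hb, hb'⟩ := hR2.exists_iic hκ0 hc h1'
      obtain ⟨W, w1, w2, w3⟩ := hA _ h2 hκ0 R hRκ hR2 b hb
      exact hcomp W (w1.of_simple hκ0.le hκ.le hRX hR2 w2) (h1.trans w2)
        (fun c hc => hμ'.le.trans (big_mono hb' fun u hu =>
          ⟨hX.1 (hRX.1 hu.1), le_trans hu.2 (w3 c hc).le⟩))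
        (big_mono hb' fun u hu => ⟨hRX.1 hu.1, fun c hc => lt_of_le_of_lt hu.2 (w3 c hc)⟩)
        (hLB W w1.1 w2)
  · obtain ⟨W, w1, w2, w3, w4⟩ := exists_bottom_wave hκ0.le hc
      (fun κ' h => hSp κ' (h.trans_lt h2)) hκ (not_le.mp hcase)
    have hWbig : μ ≤ #W := by
      obtain ⟨c, hc⟩ := w2
      exact h1.trans (big_mono (w3 c hc) inter_subset_left)
    have hWc : ∀ c ∈ W, μ' ≤ #(Q ∩ Iic c : Set α) := fun c hc =>
      (hμ'.le.trans h1).trans (big_mono (w3 c hc) (inter_subset_inter_left _ (w1.1.trans hX.1)))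
    by_cases h : μ ≤ #(LB X W)
    · exact hcomp W w1 hWbig hWc h w4
    · refine ⟨W, w1, hWbig, hWc, Or.inr ?_, not_le.mp h⟩
      rw [LB_eq hX w2 w1.1] at h ⊢
      obtain ⟨l, hl⟩ := exists_state_dual hμ.le hc w2 (w1.1.trans hX.1) w1.2.1
        (fun c hc => h1.trans (w3 c hc)) (not_le.mp h)
      exact ⟨l, hl.symm⟩

end Pool.Agent.P.MP_6ec1b7_co
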