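import Pool.Agent.P.MP_6ec1b7_co.Dense

/-!
Waves and spines. A wave of `X` is a chain `W` that is a spine of the set of elements of `X` lying
in `W` or incomparable to an element of `W`.
-/

set_option autoImplicit false

open Set Cardinal

namespace Pool.Agent.P.MP_6ec1b7_co

universe u

variable {α : Type u} [PartialOrder α] {ν : Cardinal.{u}} {ι : Type} [Finite ι] {col : α → ι}

/-- `S` is covered by antichains through the elements of `W`. -/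
def Col (S W : Set α) : Prop :=
  ∃ A : α → Set α, (∀ c ∈ W, c ∈ A c) ∧ (∀ c ∈ W, ∀ x ∈ A c, ∀ y ∈ A c, x = y ∨ Inc x y) ∧
    ∀ x ∈ S, ∃ c ∈ W, x ∈ A c

/-- `f` maps `S` to `W`, fixes `W`, and its fibres are antichains. -/
def IsCol (S W : Set α) (f : α → α) : Prop :=
  (∀ x ∈ S, f x ∈ W) ∧ (∀ c ∈ W, f c = c) ∧ ∀ x ∈ S, ∀ y ∈ S, f x = f y → x = y ∨ Inc x y

lemma Col.exists_fun {S W : Set α} (h : Col S W) : ∃ f, IsCol S W f := by
  classical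
  obtain ⟨A, h1, h2, h3⟩ := h
  choose! g hg1 hg2 using h3
  refine ⟨fun x => if x ∈ W then x else g x, fun x hx => ?_, fun c hc => if_pos hc,
    fun x hx y hy hxy => ?_⟩
  · by_cases h : x ∈ W
    · simp [h]
    · simp [h, hg1 x hx]
  · by_cases h : x ∈ W <;> by_cases h' : y ∈ W <;> simp only [h, h', if_true, if_false] at hxy
    · exact Or.inl hxy
    · exact h2 x h x (h1 x h) y (hxy ▸ hg2 y hy)
    · exact h2 y h' x (hxy ▸ hg2 x hx) y (h1 y h')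
    · exact h2 _ (hg1 x hx) x (hg2 x hx) y (hxy ▸ hg2 y hy)

lemma IsCol.toCol {S W : Set α} {f : α → α} (h : IsCol S W f) (hWS : W ⊆ S) : Col S W :=
  ⟨fun c => {x | x ∈ S ∧ f x = c}, fun c hc => ⟨hWS hc, h.2.1 c hc⟩,
    fun _ _ x hx y hy => h.2.2 x hx.1 y hy.1 (hx.2.trans hy.2.symm),
    fun x hx => ⟨f x, h.1 x hx, hx, rfl⟩⟩

lemma IsCol.self_or_inc {S W : Set α} {f : α → α} (h : IsCol S W f) (hWS : W ⊆ S) {x : α}
    (hx : x ∈ S) : f x = x ∨ Inc (f x) x :=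
  h.2.2 _ (hWS (h.1 x hx)) x hx (h.2.1 _ (h.1 x hx))

lemma IsCol.big_image (hν : ℵ₀ ≤ ν) (hc : ChCol col) {S W T : Set α} {f : α → α}
    (h : IsCol S W f) (hT : T ⊆ S) (hbig : ν ≤ #T) : ν ≤ #(f '' T) :=
  Pool.Agent.P.MP_6ec1b7_co.big_image hν col f (fun x hx y hy hcol hf =>
    (h.2.2 x (hT hx) y (hT hy) hf).resolve_right (not_inc.mpr (hc x y hcol))) hbig

lemma Col.mono {S T W : Set α} (h : Col S W) (hT : T ⊆ S) : Col T W := by
  obtain ⟨A, h1, h2, h3⟩ := h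
  exact ⟨A, h1, h2, fun x hx => h3 x (hT hx)⟩

lemma Col.iUnion {κ : Type} {S W : κ → Set α} (h : ∀ i, Col (S i) (W i))
    (hd : ∀ i j, ∀ c ∈ W i, c ∈ W j → i = j) : Col (⋃ i, S i) (⋃ i, W i) := by
  choose A h1 h2 h3 using h
  refine ⟨fun c => {x | ∃ i, c ∈ W i ∧ x ∈ A i c}, fun c hc => ?_, ?_, fun x hx => ?_⟩
  · obtain ⟨i, hi⟩ := mem_iUnion.mp hc
    exact ⟨i, hi, h1 i c hi⟩
  · rintro c - x ⟨i, hi, hx⟩ y ⟨j, hj, hy⟩
    obtain rfl := hd i j c hi hj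
    exact h2 i c hi x hx y hy
  · obtain ⟨i, hi⟩ := mem_iUnion.mp hx
    obtain ⟨c, hc, hxc⟩ := h3 i x hi
    exact ⟨c, mem_iUnion.mpr ⟨i, hc⟩, i, hc, hxc⟩

lemma Col.union {S T W V : Set α} (h : Col S W) (h' : Col T V) (hd : ∀ c ∈ W, c ∉ V) :
    Col (S ∪ T) (W ∪ V) := by
  rw [union_eq_iUnion, union_eq_iUnion]
  refine Col.iUnion (fun b => by cases b <;> assumption) fun i j c hi hj => ?_
  cases i <;> cases j
  · rfl
  · exact absurd hi (hd c hj)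
  · exact absurd hj (hd c hi)
  · rfl

/-- The colours whose class consists of elements incomparable to `x`. -/
def Free (S W : Set α) (f : α → α) (x : α) : Set α := {c | c ∈ W ∧ ∀ u ∈ S, f u = c → Inc u x}

lemma IsCol.absorb {S W : Set α} {f : α → α} (h : IsCol S W f) (hWS : W ⊆ S) {O : Set α}
    (hO : #O ≤ ν) (hF : ∀ x ∈ O, ν ≤ #(Free S W f x)) : Col (S ∪ O) W := by
  obtain ⟨g, hg1, hg2⟩ := exists_sdr O hO _ hF
  refine ⟨fun c => {x | (x ∈ S ∧ f x = c) ∨ (x ∈ O ∧ g x = c)},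
    fun c hc => Or.inl ⟨hWS hc, h.2.1 c hc⟩, ?_, ?_⟩
  · rintro c - x (hx | hx) y (hy | hy)
    · exact h.2.2 x hx.1 y hy.1 (hx.2.trans hy.2.symm)
    · exact Or.inr ((hg1 y hy.1).2 x hx.1 (hx.2.trans hy.2.symm))
    · exact Or.inr ((hg1 x hx.1).2 y hy.1 (hy.2.trans hx.2.symm)).symm
    · exact Or.inl (hg2 hx.1 hy.1 (hx.2.trans hy.2.symm))
  · rintro x (hx | hx)
    · exact ⟨f x, h.1 x hx, Or.inl ⟨hx, rfl⟩⟩
    · exact ⟨g x, (hg1 x hx).1, Or.inr ⟨hx, rfl⟩⟩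

lemma free_of_small (hν : ℵ₀ ≤ ν) {S W T : Set α} {f : α → α} (hW : ν ≤ #W) (hT : #T < ν)
    {x : α} (hx : ∀ u ∈ S, ¬ Inc u x → u ∈ T) : ν ≤ #(Free S W f x) := by
  refine big_of_subset_union hν hW (mk_image_le.trans_lt hT : #(f '' T) < ν) fun c hc => ?_
  by_cases h : c ∈ f '' T
  · exact Or.inr h
  · refine Or.inl ⟨hc, fun u hu huc => ?_⟩
    by_contra hn
    exact h ⟨u, hx u hu hn, huc⟩

lemma free_of_thin (hν : ℵ₀ ≤ ν) (hc : ChCol col) {B W : Set α} {f : α → α} (hB : Thin ν B)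
    (hf : IsCol B W f) {x : α} (hx : ν ≤ #(B ∩ N x : Set α)) : ν ≤ #(Free B W f x) := by
  set I := B ∩ N x with hI
  have key : ∃ B' ⊆ I, ν ≤ #B' ∧ ∃ T : Set α, #T < ν ∧
      ∀ v ∈ B', ∀ u ∈ B, Inc u v → Inc u x ∨ u ∈ T := by
    set I1 := {v | v ∈ I ∧ ν ≤ #(I ∩ Ici v : Set α)} with hI1
    set I2 := {v | v ∈ I ∧ ν ≤ #(I ∩ Iic v : Set α)} with hI2
    have f1 : ∀ v ∈ I1, ∀ u ∈ B, Inc u v → ¬ x ≤ u := fun v hv u hu hi h =>
      absurd hv.2 (not_le.mpr (small_mono (hB u hu) fun w hw =>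
        ⟨hw.1.1, fun h' => hi.2 (le_trans hw.2 h'), fun h' => hw.1.2.2 (h.trans h')⟩))
    have f2 : ∀ v ∈ I2, ∀ u ∈ B, Inc u v → ¬ u ≤ x := fun v hv u hu hi h =>
      absurd hv.2 (not_le.mpr (small_mono (hB u hu) fun w hw =>
        ⟨hw.1.1, fun h' => hw.1.2.1 (h'.trans h), fun h' => hi.1 (le_trans h' hw.2)⟩))
    have htri : ∀ K ⊆ I, ν ≤ #K → ∀ v ∈ B, ν ≤ #(K ∩ Ici v : Set α) ∨ ν ≤ #(K ∩ Iic v : Set α) := by
      intro K hK hbig v hv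
      by_contra hcon
      push Not at hcon
      refine absurd hbig (not_le.mpr (small_of_subset_union hν (small_union hν hcon.1 hcon.2)
        (hB v hv) fun w hw => ?_))
      by_cases h : Inc w v
      · exact Or.inr ⟨(hK hw).1, h⟩
      · rcases not_inc.mp h with h | h
        · exact Or.inl (Or.inr ⟨hw, h⟩)
        · exact Or.inl (Or.inl ⟨hw, h⟩)
    by_cases h1 : ν ≤ #I1
    · by_cases h2 : ∃ y ∈ I1, ν ≤ #(I1 ∩ Ici y : Set α)
      · obtain ⟨y, hy, hy'⟩ := h2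
        refine ⟨_, fun v hv => hv.1.1, hy', _, hB y hy.1.1, fun v hv u hu hi => ?_⟩
        by_cases h : u ≤ x
        · exact Or.inr ⟨hu, fun h' => hi.1 (le_trans h' hv.2), fun h' => hy.1.2.1 (h'.trans h)⟩
        · exact Or.inl ⟨h, f1 v hv.1 u hu hi⟩
      · push Not at h2
        refine ⟨I1, fun v hv => hv.1, h1, ∅, small_empty hν, fun v hv u hu hi =>
          Or.inl ⟨f2 v ⟨hv.1, ?_⟩ u hu hi, f1 v hv u hu hi⟩⟩
        exact big_mono ((htri I1 (fun w hw => hw.1) h1 v hv.1.1).resolve_left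
          (not_le.mpr (h2 v hv))) fun w hw => ⟨hw.1.1, hw.2⟩
    · have h1' : ν ≤ #I2 := by
        refine big_of_subset_union hν hx (not_le.mp h1) fun v hv => ?_
        rcases htri I subset_rfl hx v hv.1 with h | h
        · exact Or.inr ⟨hv, h⟩
        · exact Or.inl ⟨hv, h⟩
      by_cases h2 : ∃ y ∈ I2, ν ≤ #(I2 ∩ Iic y : Set α)
      · obtain ⟨y, hy, hy'⟩ := h2
        refine ⟨_, fun v hv => hv.1.1, hy', _, hB y hy.1.1, fun v hv u hu hi => ?_⟩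
        by_cases h : x ≤ u
        · exact Or.inr ⟨hu, fun h' => hy.1.2.2 (h.trans h'), fun h' => hi.2 (le_trans hv.2 h')⟩
        · exact Or.inl ⟨f2 v hv.1 u hu hi, h⟩
      · push Not at h2
        refine ⟨I2, fun v hv => hv.1, h1', ∅, small_empty hν, fun v hv u hu hi =>
          Or.inl ⟨f2 v hv u hu hi, f1 v ⟨hv.1, ?_⟩ u hu hi⟩⟩
        exact big_mono ((htri I2 (fun w hw => hw.1) h1' v hv.1.1).resolve_right
          (not_le.mpr (h2 v hv))) fun w hw => ⟨hw.1.1, hw.2⟩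
  obtain ⟨B', h1, h2, T, h3, h4⟩ := key
  refine big_of_subset_union hν (hf.big_image hν hc (fun v hv => (h1 hv).1) h2)
    (mk_image_le.trans_lt h3 : #(f '' T) < ν) ?_
  rintro _ ⟨v, hv, rfl⟩
  by_cases h : f v ∈ f '' T
  · exact Or.inr h
  · refine Or.inl ⟨hf.1 v (h1 hv).1, fun u hu huv => ?_⟩
    rcases hf.2.2 u hu v (h1 hv).1 huv with h' | h'
    · rw [h']; exact (h1 hv).2
    · exact (h4 v hv u hu h').resolve_right fun h'' => h ⟨u, h'', huv⟩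

/-- The elements of `X` lying in `W` or incomparable to an element of `W`. -/
def dom (X W : Set α) : Set α := {x | x ∈ X ∧ (x ∈ W ∨ ∃ c ∈ W, Inc c x)}

/-- Waves. -/
def Wave (X W : Set α) : Prop := W ⊆ X ∧ Ch W ∧ Col (dom X W) W

/-- Spines. -/
def Spine (X W : Set α) : Prop := W ⊆ X ∧ Ch W ∧ Col X W

lemma Spine.wave {X W : Set α} (h : Spine X W) : Wave X W :=
  ⟨h.1, h.2.1, h.2.2.mono fun _ hx => hx.1⟩

lemma Spine.nonempty {X W : Set α} (h : Spine X W) (hX : X.Nonempty) : W.Nonempty := by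
  obtain ⟨x, hx⟩ := hX
  obtain ⟨A, -, -, h3⟩ := h.2.2
  obtain ⟨c, hc, -⟩ := h3 x hx
  exact ⟨c, hc⟩

lemma Spine.big (hν : ℵ₀ ≤ ν) (hc : ChCol col) {X W : Set α} (h : Spine X W) (hX : ν ≤ #X) :
    ν ≤ #W := by
  obtain ⟨f, hf⟩ := h.2.2.exists_fun
  exact big_mono (hf.big_image hν hc subset_rfl hX) (by rintro _ ⟨x, hx, rfl⟩; exact hf.1 x hx)

lemma Wave.subset_dom {X W : Set α} (h : Wave X W) : W ⊆ dom X W :=
  fun _ hc => ⟨h.1 hc, Or.inl hc⟩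

lemma Wave.undual {X W : Set α} (h : Wave (α := αᵒᵈ) X W) : Wave X W := by
  obtain ⟨h1, h2, A, h3, h4, h5⟩ := h
  refine ⟨h1, h2.undual, A, h3, fun c hc x hx y hy => (h4 c hc x hx y hy).imp id fun h => ⟨h.2, h.1⟩,
    fun x hx => h5 x ⟨hx.1, hx.2.imp id fun ⟨c, hc, h⟩ => ⟨c, hc, h.2, h.1⟩⟩⟩

lemma Wave.of_subset {Y K W : Set α} (h : Wave K W) (hK : K ⊆ Y)
    (hcl : ∀ x ∈ Y, ∀ c ∈ W, Inc c x → x ∈ K) : Wave Y W :=
  ⟨h.1.trans hK, h.2.1, h.2.2.mono fun x hx => ⟨by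
    rcases hx.2 with h' | ⟨c, hc, h'⟩
    · exact h.1 h'
    · exact hcl x hx.1 c hc h', hx.2⟩⟩

lemma spine_of_waves {X : Set α} (h : ∀ Y ⊆ X, Y.Nonempty → ∃ W, W.Nonempty ∧ Wave Y W) :
    ∃ W, Spine X W := by
  let 𝒢 : Set (Set (α × α)) := {G | (∀ x c, (x, c) ∈ G → x ∈ X ∧ (c, c) ∈ G) ∧
    (∀ x y c, (x, c) ∈ G → (y, c) ∈ G → x = y ∨ Inc x y) ∧
    (∀ c c', (c, c) ∈ G → (c', c') ∈ G → c ≤ c' ∨ c' ≤ c) ∧
    ∀ x ∈ X, ∀ c, (c, c) ∈ G → Inc c x → ∃ c', (x, c') ∈ G}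
  obtain ⟨G, hG⟩ := zorn_subset 𝒢 (by
    intro c hc hch
    refine ⟨⋃₀ c, ⟨?_, ?_, ?_, ?_⟩, fun s hs => subset_sUnion_of_mem hs⟩
    · rintro x d ⟨G, hG, h⟩
      exact ⟨((hc hG).1 x d h).1, G, hG, ((hc hG).1 x d h).2⟩
    · rintro x y d ⟨G, hG, h⟩ ⟨G', hG', h'⟩
      obtain ⟨G'', hG'', h1, h2⟩ := hch.directedOn G hG G' hG'
      exact (hc hG'').2.1 x y d (h1 h) (h2 h')
    · rintro d d' ⟨G, hG, h⟩ ⟨G', hG', h'⟩
      obtain ⟨G'', hG'', h1, h2⟩ := hch.directedOn G hG G' hG'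
      exact (hc hG'').2.2.1 d d' (h1 h) (h2 h')
    · rintro x hx d ⟨G, hG, h⟩ hi
      obtain ⟨c', hc'⟩ := (hc hG).2.2.2 x hx d h hi
      exact ⟨c', G, hG, hc'⟩)
  obtain ⟨g1, g2, g3, g4⟩ := hG.1
  refine ⟨{c | (c, c) ∈ G}, fun c hc => (g1 c c hc).1, fun c hc c' hc' => g3 c c' hc hc',
    fun c => {x | (x, c) ∈ G}, fun c hc => hc, fun c _ x hx y hy => g2 x y c hx hy, fun x hx => ?_⟩
  by_contra hcon
  have hx' : ¬ ∃ c, (x, c) ∈ G := fun ⟨c, hc⟩ => hcon ⟨c, (g1 x c hc).2, hc⟩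
  obtain ⟨W, ⟨w, hw⟩, hW1, hW2, hW3⟩ :=
    h {x | x ∈ X ∧ ¬ ∃ c, (x, c) ∈ G} (fun _ h => h.1) ⟨x, hx, hx'⟩
  obtain ⟨f, hf⟩ := hW3.exists_fun
  set Y := {x | x ∈ X ∧ ¬ ∃ c, (x, c) ∈ G} with hY
  have hcW : ∀ {y c : α}, (y, c) ∈ {p : α × α | p.1 ∈ dom Y W ∧ f p.1 = p.2} → c ∈ W := by
    intro y c hy
    have h1 : f y = c := hy.2
    exact h1 ▸ hf.1 y hy.1
  have hmem : G ∪ {p | p.1 ∈ dom Y W ∧ f p.1 = p.2} ∈ 𝒢 := by
    refine ⟨?_, ?_, ?_, ?_⟩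
    · rintro y c (hy | hy)
      · exact ⟨(g1 y c hy).1, Or.inl (g1 y c hy).2⟩
      · have : c ∈ W := hcW hy
        exact ⟨hy.1.1.1, Or.inr ⟨⟨hW1 this, Or.inl this⟩, hf.2.1 c this⟩⟩
    · rintro y z c (hy | hy) (hz | hz)
      · exact g2 y z c hy hz
      · exact absurd ⟨c, (g1 y c hy).2⟩ (hW1 (hcW hz)).2
      · exact absurd ⟨c, (g1 z c hz).2⟩ (hW1 (hcW hy)).2
      · exact hf.2.2 y hy.1 z hz.1 (hy.2.trans hz.2.symm)
    · rintro c c' (hc | hc) (hc' | hc')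
      · exact g3 c c' hc hc'
      · exact not_inc.mp fun hi => hc'.1.1.2 (g4 c' hc'.1.1.1 c hc hi)
      · exact (not_inc.mp fun hi => hc.1.1.2 (g4 c hc.1.1.1 c' hc' hi)).symm
      · exact hW2 c (hcW hc) c' (hcW hc')
    · rintro y hy c (hc | hc) hi
      · obtain ⟨c', hc'⟩ := g4 y hy c hc hi
        exact ⟨c', Or.inl hc'⟩
      · by_cases hyG : ∃ c', (y, c') ∈ G
        · obtain ⟨c', hc'⟩ := hyG
          exact ⟨c', Or.inl hc'⟩
        · exact ⟨f y, Or.inr ⟨⟨⟨hy, hyG⟩, Or.inr ⟨c, hcW hc, hi⟩⟩, rfl⟩⟩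
  have := hG.2 hmem subset_union_left
  exact (hW1 hw).2 ⟨w, this (Or.inr ⟨⟨hW1 hw, Or.inl hw⟩, hf.2.1 w hw⟩)⟩

lemma spine_of_full (hν : ℵ₀ ≤ ν) (hc : ChCol col) {X B W : Set α} (hX : #X ≤ ν)
    (hB : Full ν X B) (hW : Spine B W) : Spine X W := by
  obtain ⟨f, hf⟩ := hW.2.2.exists_fun
  refine ⟨hW.1.trans hB.1, hW.2.1, (hf.absorb hW.1 (O := X \ B)
    ((mk_le_mk_of_subset sdiff_subset).trans hX) fun x hx =>
      free_of_thin hν hc hB.2.1 hf (hB.2.2 x hx.1 hx.2)).mono fun x hx => ?_⟩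
  by_cases h : x ∈ B
  · exact Or.inl h
  · exact Or.inr ⟨hx, h⟩

lemma spine_of_finite {X : Set α} (hX : X.Finite) : ∃ W, Spine X W := by
  induction hn : X.ncard using Nat.strong_induction_on generalizing X with
  | _ n ih =>
    rcases X.eq_empty_or_nonempty with rfl | hne
    · exact ⟨∅, subset_rfl, fun _ h => h.elim, fun _ => ∅, fun _ h => h.elim, fun _ h => h.elim,
        fun _ h => h.elim⟩
    set M := {m | Maximal (· ∈ X) m} with hM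
    obtain ⟨m0, hm0⟩ := hX.exists_maximal hne
    obtain ⟨W, h1, h2, h3⟩ := ih (X \ M).ncard (by
      rw [← hn]
      exact ncard_lt_ncard ⟨sdiff_subset, fun h => (h hm0.1).2 hm0⟩ hX) (hX.subset sdiff_subset) rfl
    have hm : ∃ m ∈ M, ∀ c ∈ W, c ≤ m := by
      rcases W.eq_empty_or_nonempty with rfl | hW
      · exact ⟨m0, hm0, fun _ h => h.elim⟩
      · obtain ⟨t, ht⟩ := (hX.subset (h1.trans sdiff_subset)).exists_maximal hW
        obtain ⟨m, htm, hm⟩ := hX.exists_le_maximal (h1 ht.1).1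
        refine ⟨m, hm, fun c hc => le_trans ?_ htm⟩
        rcases h2 c hc t ht.1 with h | h
        · exact h
        · exact ht.2 hc h
    obtain ⟨m, hm, hm'⟩ := hm
    have hcol : Col M {m} := ⟨fun _ => M, fun c hc => hc ▸ hm, fun c _ x hx y hy => by
      by_cases h : x = y
      · exact Or.inl h
      · exact Or.inr ⟨fun h' => h (le_antisymm h' (hx.2 hy.1 h')),
          fun h' => h (le_antisymm (hy.2 hx.1 h') h')⟩, fun x hx => ⟨m, rfl, hx⟩⟩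
    refine ⟨W ∪ {m}, union_subset (h1.trans sdiff_subset) (singleton_subset_iff.mpr hm.1), ?_,
      (h3.union hcol fun c hc h => (h1 hc).2 (h ▸ hm)).mono fun x hx => ?_⟩
    · rintro x (hx | rfl) y (hy | rfl)
      · exact h2 x hx y hy
      · exact Or.inl (hm' x hx)
      · exact Or.inr (hm' y hy)
      · exact Or.inl le_rfl
    · by_cases h : x ∈ M
      · exact Or.inr h
      · exact Or.inl ⟨hx, h⟩

lemma spine_of_locally_finite {B : Set α} (hB : Thin ℵ₀ B) : ∃ W, Spine B W := by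
  classical
  have h1 : ∀ s : Finset α, ∃ (W : Set α) (f : α → α), W ⊆ (s : Set α) ∩ B ∧ Ch W ∧
      IsCol ((s : Set α) ∩ B) W f := by
    intro s
    obtain ⟨W, h1, h2, h3⟩ := spine_of_finite (s.finite_toSet.inter_of_left B)
    obtain ⟨f, hf⟩ := h3.exists_fun
    exact ⟨W, f, h1, h2, hf⟩
  choose W f hW1 hW2 hf using h1
  let β : α → Type u := fun a => {u : α // u = a ∨ (a ∈ B ∧ u ∈ B ∩ N a)}
  have hfin : ∀ a, Finite (β a) := by
    intro a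
    have : ({u : α | u = a ∨ (a ∈ B ∧ u ∈ B ∩ N a)}).Finite := by
      by_cases ha : a ∈ B
      · exact ((finite_singleton a).union (lt_aleph0_iff_set_finite.mp (hB a ha))).subset
          fun u hu => hu.imp id fun h => h.2
      · exact (finite_singleton a).subset fun u hu => hu.resolve_right fun h => ha h.1
    exact this
  let g : Finset α → (a : α) → β a := fun s a =>
    if h : a ∈ (s : Set α) ∩ B then ⟨f s a, ((hf s).self_or_inc (hW1 s) h).imp id fun h' =>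
      ⟨h.2, (hW1 s ((hf s).1 a h)).2, h'⟩⟩ else ⟨a, Or.inl rfl⟩
  obtain ⟨χ, hχ⟩ := Finset.rado_selection g
  have key : ∀ x ∈ B, ∀ y ∈ B, ∃ t : Finset α, x ∈ (t : Set α) ∩ B ∧ y ∈ (t : Set α) ∩ B ∧
      (χ x).1 = f t x ∧ (χ y).1 = f t y := by
    intro x hx y hy
    obtain ⟨t, ht1, ht2⟩ := hχ {x, y}
    have hxt : x ∈ (t : Set α) ∩ B := ⟨ht1 (by simp), hx⟩
    have hyt : y ∈ (t : Set α) ∩ B := ⟨ht1 (by simp), hy⟩
    refine ⟨t, hxt, hyt, ?_, ?_⟩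
    · rw [ht2 x (by simp)]; simp only [g, dif_pos hxt]
    · rw [ht2 y (by simp)]; simp only [g, dif_pos hyt]
  have hχB : ∀ x ∈ B, (χ x).1 ∈ B := fun x hx => by
    rcases (χ x).2 with h | h
    · rw [h]; exact hx
    · exact h.2.1
  refine ⟨{c | c ∈ B ∧ (χ c).1 = c}, fun c hc => hc.1, fun c hc c' hc' => ?_,
    IsCol.toCol (f := fun x => (χ x).1) ⟨fun x hx => ⟨hχB x hx, ?_⟩, fun c hc => hc.2,
      fun x hx y hy hxy => ?_⟩ fun c hc => hc.1⟩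
  · obtain ⟨t, h1, h2, h3, h4⟩ := key c hc.1 c' hc'.1
    refine hW2 t c ?_ c' ?_
    · rw [← hc.2, h3]; exact (hf t).1 c h1
    · rw [← hc'.2, h4]; exact (hf t).1 c' h2
  · obtain ⟨t, h1, -, h3, h4⟩ := key x hx _ (hχB x hx)
    change (χ (χ x).1).1 = (χ x).1
    rw [h4, h3]
    exact (hf t).2.1 _ ((hf t).1 x h1)
  · obtain ⟨t, h1, h2, h3, h4⟩ := key x hx y hy
    exact (hf t).2.2 x h1 y h2 (by rw [← h3, ← h4]; exact hxy)

/-- The strict lower bounds of `W` in `X`. -/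
def LB (X W : Set α) : Set α := {x | x ∈ X ∧ ∀ c ∈ W, x < c}

lemma low_LB (X W : Set α) : Low X (LB X W) :=
  ⟨fun _ hx => hx.1, fun _ hu _ hz h => ⟨hu, fun c hc => h.trans_lt (hz.2 c hc)⟩⟩

lemma Wave.comp {X W V : Set α} (h : Wave X W) (h' : Wave (LB X W) V) : Wave X (W ∪ V) := by
  refine ⟨union_subset h.1 fun c hc => (h'.1 hc).1, ?_,
    (h.2.2.union h'.2.2 fun c hc hc' => lt_irrefl _ ((h'.1 hc').2 c hc)).mono fun x hx => ?_⟩
  · rintro x (hx | hx) y (hy | hy)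
    · exact h.2.1 x hx y hy
    · exact Or.inr ((h'.1 hy).2 x hx).le
    · exact Or.inl ((h'.1 hx).2 y hy).le
    · exact h'.2.1 x hx y hy
  · by_cases hd : x ∈ dom X W
    · exact Or.inl hd
    · right
      rcases hx.2 with (h1 | h1) | ⟨c, h1 | h1, hi⟩
      · exact absurd ⟨hx.1, Or.inl h1⟩ hd
      · exact ⟨h'.1 h1, Or.inl h1⟩
      · exact absurd ⟨hx.1, Or.inr ⟨c, h1, hi⟩⟩ hd
      · refine ⟨⟨hx.1, fun c' hc' => ?_⟩, Or.inr ⟨c, h1, hi⟩⟩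
        rcases not_inc.mp fun hi' => hd ⟨hx.1, Or.inr ⟨c', hc', hi'⟩⟩ with h2 | h2
        · exact absurd (((h'.1 h1).2 c' hc').le.trans h2) hi.1
        · exact lt_of_le_of_ne h2 fun h3 => hd ⟨hx.1, Or.inl (h3 ▸ hc')⟩

lemma Wave.of_simple (hν : ℵ₀ ≤ ν) {X R W : Set α} (hX : #X ≤ ν) (hR : Low X R)
    (hR' : UpSimple ν R) (h : Wave R W) (hW : ν ≤ #W) : Wave X W := by
  obtain ⟨f, hf⟩ := h.2.2.exists_fun
  refine ⟨h.1.trans hR.1, h.2.1, (hf.absorb h.subset_dom (O := dom X W \ R)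
    ((mk_le_mk_of_subset fun x hx => hx.1.1).trans hX) fun x hx => ?_).mono fun x hx => ?_⟩
  · obtain ⟨c, hc, hi⟩ := hx.1.2.resolve_left fun h' => hx.2 (h.1 h')
    refine free_of_small hν hW (hR'.2 c (h.1 hc)) fun u hu hn => ⟨hu.1, fun h' => ?_⟩
    rcases not_inc.mp hn with h'' | h''
    · exact hi.1 (le_trans h' h'')
    · exact hx.2 (hR.2 x hx.1.1 u hu.1 h'')
  · by_cases h' : x ∈ R
    · exact Or.inl ⟨h', hx.2⟩
    · exact Or.inr ⟨hx, h'⟩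

end Pool.Agent.P.MP_6ec1b7_co
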